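import Mathlib

/-!
Two exceptional sets of finite measure: Borel's growth lemma, and the radii which are close to the
moduli of the points of a discrete set.
-/

set_option autoImplicit false

namespace Pool.Agent.E8helper90.ND

open MeasureTheory Set

/-- Borel's growth lemma. -/
theorem borel (T : ℝ → ℝ) (hT : MonotoneOn T (Ioi 0)) (h1 : ∀ r, 1 ≤ r → 1 ≤ T r) :
    ∃ E : Set ℝ, volume E < ⊤ ∧ ∀ r, 1 ≤ r → r ∉ E → T (r + 1 / T r) ≤ 2 * T r := by
  let F : ℕ → Set ℝ := fun k =>
    {r | 1 ≤ r ∧ (2 : ℝ) ^ k ≤ T r ∧ T r < 2 ^ (k + 1) ∧ 2 * T r < T (r + 1 / T r)}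
  have hF : ∀ k, volume (F k) ≤ ENNReal.ofReal ((1 / 2) ^ k) := by
    intro k
    refine (Real.volume_le_diam _).trans ?_
    refine Metric.ediam_le fun x hx y hy => ?_
    rw [edist_dist]
    apply ENNReal.ofReal_le_ofReal
    have key : ∀ a b : ℝ, a ∈ F k → b ∈ F k → a ≤ b → b - a ≤ (1 / 2) ^ k := by
      intro a b ha hb _
      by_contra hcon
      push Not at hcon
      obtain ⟨a1, a2, a3, a4⟩ := ha
      obtain ⟨b1, b2, b3, b4⟩ := hb
      have h2 : (0 : ℝ) < 2 ^ k := by positivity
      have h3 : 1 / T a ≤ (1 / 2) ^ k := by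
        rw [one_div_pow]
        exact one_div_le_one_div_of_le h2 a2
      have h4 : a + 1 / T a ≤ b := by linarith
      have h5 : 0 < a + 1 / T a := by
        have : 0 < T a := by linarith [h1 a a1]
        positivity
      have h6 : T (a + 1 / T a) ≤ T b := hT h5 (by simp only [mem_Ioi]; linarith) h4
      have h7 : (2 : ℝ) ^ (k + 1) = 2 * 2 ^ k := by ring
      linarith
    rcases le_total x y with h | h
    · rw [dist_comm, Real.dist_eq, abs_of_nonneg (by linarith)]
      exact key x y hx hy h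
    · rw [Real.dist_eq, abs_of_nonneg (by linarith)]
      exact key y x hy hx h
  refine ⟨⋃ k, F k, ?_, ?_⟩
  · refine lt_of_le_of_lt (measure_iUnion_le _) ?_
    refine lt_of_le_of_lt (ENNReal.tsum_le_tsum hF) ?_
    have hs : Summable fun k : ℕ => ((1 / 2 : ℝ)) ^ k := summable_geometric_two
    rw [← ENNReal.ofReal_tsum_of_nonneg (fun n => by positivity) hs]
    exact ENNReal.ofReal_lt_top
  · intro r hr hrE
    by_contra hcon
    push Not at hcon
    apply hrE
    rw [mem_iUnion]
    obtain ⟨k, hk1, hk2⟩ : ∃ k : ℕ, (2 : ℝ) ^ k ≤ T r ∧ T r < 2 ^ (k + 1) :=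
      exists_nat_pow_near (h1 r hr) one_lt_two
    exact ⟨k, hr, hk1, hk2, hcon⟩

/-- the number of the points of `D` in the closed disc of radius `t` -/
noncomputable def cnt (D : Set ℂ) (t : ℝ) : ℕ := (D ∩ Metric.closedBall 0 t).ncard

theorem cnt_mono {D : Set ℂ} (hD : ∀ t, (D ∩ Metric.closedBall 0 t).Finite) {s t : ℝ}
    (hst : s ≤ t) : cnt D s ≤ cnt D t :=
  ncard_le_ncard (inter_subset_inter_right _ (Metric.closedBall_subset_closedBall hst)) (hD t)

/-- the distance which is kept from the modulus of `u` -/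
noncomputable def gap (D : Set ℂ) (u : ℂ) : ℝ := 1 / (1 + (cnt D ‖u‖ : ℝ)) ^ 2

theorem gap_pos (D : Set ℂ) (u : ℂ) : 0 < gap D u := by
  unfold gap
  positivity

theorem sum_gap {D : Set ℂ} (hD : ∀ t, (D ∩ Metric.closedBall 0 t).Finite) :
    ∀ (n : ℕ) (F : Finset ℂ), F.card = n → (∀ u ∈ F, u ∈ D) →
      ∑ u ∈ F, gap D u ≤ 1 - 1 / (n + 1 : ℝ) := by
  intro n
  induction n with
  | zero =>
    intro F hF _
    rw [Finset.card_eq_zero] at hF
    subst hF
    simp
  | succ n ih =>
    intro F hF hFD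
    have hne : F.Nonempty := by
      rw [← Finset.card_pos]
      omega
    obtain ⟨v, hv, hmax⟩ := F.exists_max_image (fun u => ‖u‖) hne
    have h1 : (F.erase v).card = n := by
      rw [Finset.card_erase_of_mem hv]
      omega
    have h2 := ih (F.erase v) h1 fun u hu => hFD u (Finset.mem_of_mem_erase hu)
    have h3 : n + 1 ≤ cnt D ‖v‖ := by
      unfold cnt
      rw [← hF, ← Set.ncard_coe_finset F]
      refine ncard_le_ncard ?_ (hD _)
      intro u hu
      exact ⟨hFD u hu, by simpa using hmax u hu⟩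
    have h4 : gap D v ≤ 1 / (n + 2 : ℝ) ^ 2 := by
      unfold gap
      apply one_div_le_one_div_of_le (by positivity)
      have : ((n + 1 : ℕ) : ℝ) ≤ cnt D ‖v‖ := by exact_mod_cast h3
      push_cast at this
      apply pow_le_pow_left₀ (by positivity)
      linarith
    rw [← Finset.add_sum_erase F _ hv]
    have h5 : (1 : ℝ) / (n + 2 : ℝ) ^ 2 ≤ 1 / (n + 1 : ℝ) - 1 / (n + 2 : ℝ) := by
      rw [div_sub_div _ _ (by positivity) (by positivity), div_le_div_iff₀ (by positivity)
        (by positivity)]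
      nlinarith
    push_cast
    have h6 : (n : ℝ) + 1 + 1 = n + 2 := by ring
    rw [h6]
    linarith

/-- Outside a set of finite measure the radii are not close to the moduli of the points of `D`. -/
theorem avoid {D : Set ℂ} (hD : ∀ t, (D ∩ Metric.closedBall 0 t).Finite) :
    ∃ E : Set ℝ, volume E < ⊤ ∧ ∀ r ∉ E, ∀ u ∈ D, ∀ R, ‖u‖ ≤ R →
      1 / (1 + (cnt D R : ℝ)) ^ 2 ≤ |r - ‖u‖| := by
  have hc : D.Countable := by
    have h1 : D = ⋃ n : ℕ, (D ∩ Metric.closedBall 0 (n : ℝ)) := by
      ext u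
      simp only [mem_iUnion, mem_inter_iff, Metric.mem_closedBall, dist_zero_right]
      constructor
      · intro hu
        obtain ⟨n, hn⟩ := exists_nat_ge ‖u‖
        exact ⟨n, hu, hn⟩
      · rintro ⟨n, hu, -⟩
        exact hu
    rw [h1]
    exact countable_iUnion fun n => (hD n).countable
  have := hc.to_subtype
  refine ⟨⋃ u : D, Ioo (‖(u : ℂ)‖ - gap D u) (‖(u : ℂ)‖ + gap D u), ?_, ?_⟩
  · refine lt_of_le_of_lt (measure_iUnion_le _) ?_
    have h2 : ∀ u : D, volume (Ioo (‖(u : ℂ)‖ - gap D u) (‖(u : ℂ)‖ + gap D u)) =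
        ENNReal.ofReal (2 * gap D u) := by
      intro u
      rw [Real.volume_Ioo]
      congr 1
      ring
    simp only [h2]
    rw [ENNReal.tsum_eq_iSup_sum]
    refine lt_of_le_of_lt (iSup_le (a := ENNReal.ofReal 2) fun s => ?_) ENNReal.ofReal_lt_top
    rw [← ENNReal.ofReal_sum_of_nonneg fun u _ => by have := gap_pos D u; positivity]
    apply ENNReal.ofReal_le_ofReal
    classical
    have h3 := sum_gap hD _ (s.map (Function.Embedding.subtype _)) rfl (by
      intro u hu
      rw [Finset.mem_map] at hu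
      obtain ⟨v, -, rfl⟩ := hu
      exact v.2)
    rw [Finset.sum_map] at h3
    rw [← Finset.mul_sum]
    have h4 : (0 : ℝ) ≤ 1 / (((s.map (Function.Embedding.subtype (· ∈ D))).card : ℝ) + 1) := by
      positivity
    simp only [Function.Embedding.subtype_apply] at h3
    linarith
  · intro r hr u hu R hR
    rw [mem_iUnion] at hr
    push Not at hr
    have h1 := hr ⟨u, hu⟩
    have h2 : gap D u ≤ |r - ‖u‖| := by
      by_contra hcon
      push Not at hcon
      rw [abs_lt] at hcon
      exact h1 ⟨by simp only; linarith [hcon.1], by simp only; linarith [hcon.2]⟩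
    refine le_trans ?_ h2
    unfold gap
    apply one_div_le_one_div_of_le (by positivity)
    apply pow_le_pow_left₀ (by positivity)
    have := cnt_mono hD hR
    have h3 : (cnt D ‖u‖ : ℝ) ≤ cnt D R := by exact_mod_cast this
    linarith

end Pool.Agent.E8helper90.ND
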