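import Pool.Agent.E8helper90.ND.Sm

/-!
Curves given by iterated linear differential equations with finitely many initial coefficients.
-/

set_option autoImplicit false

namespace Pool.Agent.E8helper90.ND

open MeasureTheory Set Filter Topology MvPolynomial ValueDistribution
open scoped LinearAlgebra.Projectivization
open Pool.Agent.TH143.EL (HolMap InV Rep)
open Pool.Agent.TH143.HE (RatCurvesIn IsPtP NonConst)
open Pool.Agent.TH143.GT (Covered FunField Pluricanonical)
open Pool.Agent.W602.GT (IsForm GeneralType)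
open Pool.Agent.Y377.IL

variable {N : ℕ}

theorem iterLin_mono {B B' : Subalgebra ℂ (ℂ → ℂ)} (hB : B ≤ B') {g : ℂ → ℂ}
    (h : IterLin B g) : IterLin B' g := by
  induction h with
  | quot h1 h2 => exact IterLin.quot (hB h1) (hB h2)
  | add _ _ h1 h2 => exact h1.add h2
  | mul _ _ h1 h2 => exact h1.mul h2
  | ode A y _ h2 h3 i h1 => exact IterLin.ode A y h1 h2 h3 i

theorem iteratedOver_mono {B B' : Subalgebra ℂ (ℂ → ℂ)} (hB : B ≤ B')
    {f : ℂ → ℙ ℂ (Fin (N + 1) → ℂ)} (h : IteratedOver B f) : IteratedOver B' f := by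
  obtain ⟨g, h1, h2⟩ := h
  exact ⟨g, fun j => iterLin_mono hB (h1 j), h2⟩

/-- The algebra generated by the functions `a k` and all their derivatives. -/
def diffAlg {m : ℕ} (a : Fin m → ℂ → ℂ) : Subalgebra ℂ (ℂ → ℂ) :=
  Algebra.adjoin ℂ {g | ∃ (k : Fin m) (n : ℕ), g = deriv^[n] (a k)}

/-- the sum of the characteristics of the coefficients -/
noncomputable def coefSize {m : ℕ} (a : Fin m → ℂ → ℂ) (r : ℝ) : ℝ :=
  ∑ k, characteristic (a k) ⊤ r + Real.log r + 1

theorem coefSize_ge {m : ℕ} (a : Fin m → ℂ → ℂ) (r : ℝ) (hr : 1 ≤ r) :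
    Real.log r + 1 ≤ coefSize a r := by
  unfold coefSize
  have h1 : 0 ≤ ∑ k, characteristic (a k) ⊤ r :=
    Finset.sum_nonneg fun _ _ => characteristic_nonneg hr
  linarith

theorem diffAlg_le {m : ℕ} {a : Fin m → ℂ → ℂ} (ha : ∀ k, Meromorphic (a k)) :
    diffAlg a ≤ (bigO (coefSize a) (coefSize_ge a)).ring := by
  unfold diffAlg
  rw [Algebra.adjoin_le_iff]
  rintro _ ⟨k, n, rfl⟩
  rw [SetLike.mem_coe, GrowthClass.mem_ring]
  induction n with
  | zero =>
    refine ⟨ha k, 1, ∅, by simp, fun r hr _ => ?_⟩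
    rw [one_mul]
    have h1 : characteristic (a k) ⊤ r ≤ ∑ k, characteristic (a k) ⊤ r :=
      Finset.single_le_sum (f := fun k => characteristic (a k) ⊤ r)
        (fun _ _ => characteristic_nonneg hr) (Finset.mem_univ k)
    have h2 := Real.log_nonneg hr
    change characteristic (a k) ⊤ r ≤ _
    unfold coefSize
    linarith
  | succ n ih =>
    rw [Function.iterate_succ', Function.comp_apply]
    exact GrowthClass.in_deriv ih

variable {p : Ideal (MvPolynomial (Fin (N + 1)) ℂ)} {K : Type} [Field K] [Algebra ℂ K]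
  {w : ℕ} {y : Fin (N + 1) → K} {f : ℂ → ℙ ℂ (Fin (N + 1) → ℂ)}

theorem images_growth (hy : FunField p 1 K w y) (hf : HolMap f) (hX : ∀ z, InV p (f z))
    (hd : Dense p f) (G : GrowthClass) (hl : IteratedOver G.ring f)
    (E : IntermediateField ℂ K) :
    GrowthAlong G y f E ∨
      (Covered E ∧ ∀ v : ℕ, 0 < v → Algebra.trdeg ℂ E = v → ∀ n : ℕ, 0 < n →
        ∀ ω : (Fin v → Derivation ℂ E E) → E, Pluricanonical v n ω → ω = 0) := by
  rcases images_gen hy hf hX hd (db_ring G) hl E with h1 | h1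
  · exact Or.inl (growthAlong_of hf h1)
  · exact Or.inr h1

theorem form_growth (hy : FunField p 1 K w y) (hf : HolMap f) (hX : ∀ z, InV p (f z))
    (hd : Dense p f) (G : GrowthClass) (hl : IteratedOver G.ring f)
    (hω : ∃ n : ℕ, 0 < n ∧ ∃ ω : (Fin w → Derivation ℂ K K) → K,
      Pluricanonical w n ω ∧ ω ≠ 0) : G.mem (order f) := by
  obtain ⟨n, hn, ω, hω, h0⟩ := hω
  rcases gen_K hy hf hX hd (db_ring G) hl with h1 | ⟨-, h1⟩
  · exact order_mem hf h1
  · exact absurd (h1 n hn ω hω) h0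

theorem small_covered (hy : FunField p 1 K w y) (hf : HolMap f) (hX : ∀ z, InV p (f z))
    (hd : Dense p f) (hw : 0 < w) (hl : IteratedOver (smallClass f).ring f) :
    Covered K ∧ ∀ n : ℕ, 0 < n → ∀ ω : (Fin w → Derivation ℂ K K) → K,
      Pluricanonical w n ω → ω = 0 := by
  rcases gen_K hy hf hX hd (db_ring (smallClass f)) hl with h1 | h1
  · obtain ⟨h, h2, h3⟩ := iterated_bot_of_log hf (log_of_small hf (order_mem hf h1))
    have hv : Algebra.trdeg ℂ (⊤ : IntermediateField ℂ K) = w := by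
      rw [← hy.sub.dim]
      exact (IntermediateField.topEquiv (F := ℂ) (E := K)).trdeg_eq
    have h4 := covered_of_top (fields_bot hy hf hX hd h2 h3 ⊤ hv hw).1
    exact ⟨h4, fun n hn ω hω => Pool.Agent.Y288.IL.t_PL N p K w y hy hw h4 n hn ω hω⟩
  · exact h1

theorem dich_growth {I I' : Ideal (MvPolynomial (Fin (N + 1)) ℂ)}
    (hR : RatCurvesIn (RingHom.id ℂ) I I') (hf : HolMap f) (hI : ∀ z, InV I (f z))
    (G : GrowthClass) (hl : IteratedOver G.ring f) :
    (∀ z, InV I' (f z)) ∨ G.mem (order f) := by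
  rcases dich_gen hR (db_ring G) hf hl hI with h1 | h1
  · exact Or.inl h1
  · exact Or.inr (order_mem hf h1)

theorem dich_small {I I' : Ideal (MvPolynomial (Fin (N + 1)) ℂ)}
    (hR : RatCurvesIn (RingHom.id ℂ) I I') (hf : HolMap f) (hI : ∀ z, InV I (f z))
    (hl : IteratedOver (smallClass f).ring f) :
    (∀ z, InV I' (f z)) ∨ ∀ z z', f z = f z' := by
  rcases dich_growth hR hf hI (smallClass f) hl with h1 | h1
  · exact Or.inl h1
  · exact log_dich hR hf (log_of_small hf h1) hI

end Pool.Agent.E8helper90.ND
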