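import Pool.Agent.E8helper90.ND.LogE

/-!
Classes of growth, and the differential rings of meromorphic functions given by them.
-/

set_option autoImplicit false

namespace Pool.Agent.E8helper90.ND

open MeasureTheory Set Metric Real Filter Topology MeromorphicOn ValueDistribution

/-- A class of growth is a set of functions of `r ≥ 1` which contains `log r + 1`, is closed under
addition, and contains each function which is bounded above by a member of the set outside a set of
finite measure. -/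
structure GrowthClass where
  /-- the members of the class -/
  mem : (ℝ → ℝ) → Prop
  log_mem : mem fun r => Real.log r + 1
  add_mem : ∀ u v, mem u → mem v → mem fun r => u r + v r
  of_le : ∀ (u v : ℝ → ℝ) (E : Set ℝ), mem u → volume E < ⊤ →
    (∀ r, 1 ≤ r → r ∉ E → v r ≤ u r) → mem v

namespace GrowthClass

variable (G : GrowthClass)

theorem of_le' {u v : ℝ → ℝ} (hu : G.mem u) (h : ∀ r, 1 ≤ r → v r ≤ u r) : G.mem v :=
  G.of_le u v ∅ hu (by simp) fun r hr _ => h r hr

theorem nat_mem {u : ℝ → ℝ} (hu : G.mem u) (n : ℕ) : G.mem fun r => (n + 1 : ℝ) * u r := by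
  induction n with
  | zero => simpa using hu
  | succ n ih =>
    have h1 := G.add_mem _ _ ih hu
    convert h1 using 2 with r
    push_cast
    ring

theorem smul_mem {u : ℝ → ℝ} (hu : G.mem u) (h0 : ∀ r, 1 ≤ r → 0 ≤ u r) (C : ℝ) :
    G.mem fun r => C * u r := by
  obtain ⟨n, hn⟩ := exists_nat_ge C
  refine G.of_le' (G.nat_mem hu n) fun r hr => ?_
  have := h0 r hr
  exact mul_le_mul_of_nonneg_right (by linarith) this

theorem const_mem (C : ℝ) : G.mem fun _ => C := by
  have h1 := G.smul_mem G.log_mem (fun r hr => by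
    have := Real.log_nonneg hr
    linarith) |C|
  refine G.of_le' h1 fun r hr => ?_
  have h2 := Real.log_nonneg hr
  have h3 : |C| * 1 ≤ |C| * (Real.log r + 1) :=
    mul_le_mul_of_nonneg_left (by linarith) (abs_nonneg _)
  linarith [le_abs_self C]

/-- the meromorphic functions whose characteristic is in the class -/
def In (f : ℂ → ℂ) : Prop := Meromorphic f ∧ G.mem (characteristic f ⊤)

variable {G}

theorem in_congr {f g : ℂ → ℂ} (hf : G.In f) (hg : Meromorphic g) (h : g =ᶠ[codiscrete ℂ] f) :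
    G.In g :=
  ⟨hg, G.of_le' hf.2 fun r hr =>
    (characteristic_congr_codiscrete h (by linarith : r ≠ 0)).le⟩

variable (G) in
theorem in_const (c : ℂ) : G.In fun _ => c := by
  refine ⟨Meromorphic.const c, G.of_le' (G.const_mem (Real.posLog ‖c‖)) fun r _ => ?_⟩
  have h1 : characteristic (fun _ : ℂ => c) ⊤ r = Real.posLog ‖c‖ := by
    simp [characteristic, proximity_top, circleAverage_const]
  exact h1.le

variable (G) in
theorem in_zero {f : ℂ → ℂ} (hf : Meromorphic f) (h : f =ᶠ[codiscrete ℂ] 0) : G.In f :=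
  in_congr (G.in_const 0) hf h

theorem in_add {f g : ℂ → ℂ} (hf : G.In f) (hg : G.In g) : G.In (f + g) := by
  refine ⟨hf.1.add hg.1, ?_⟩
  refine G.of_le' (G.add_mem _ _ (G.add_mem _ _ hf.2 hg.2) (G.const_mem (Real.log 2)))
    fun r hr => ?_
  exact characteristic_add_top_le hf.1 hg.1 hr

theorem char_mul_le {f g : ℂ → ℂ} (hf : Meromorphic f) (hg : Meromorphic g) {r : ℝ}
    (hr : 1 ≤ r) : characteristic (f * g) ⊤ r ≤ characteristic f ⊤ r + characteristic g ⊤ r := by
  have h0 : f * g =ᶠ[codiscrete ℂ] 0 →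
      characteristic (f * g) ⊤ r ≤ characteristic f ⊤ r + characteristic g ⊤ r := by
    intro h
    rw [characteristic_congr_codiscrete h (by linarith : r ≠ 0)]
    have h1 : characteristic (0 : ℂ → ℂ) ⊤ r = 0 := by
      simp [characteristic, proximity_top, circleAverage_const]
    rw [h1]
    exact add_nonneg (characteristic_nonneg hr) (characteristic_nonneg hr)
  rcases zero_or hf with h1 | h1
  · refine h0 ?_
    filter_upwards [h1] with z hz
    rw [Pi.mul_apply, hz, Pi.zero_apply, zero_mul]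
  rcases zero_or hg with h2 | h2
  · refine h0 ?_
    filter_upwards [h2] with z hz
    rw [Pi.mul_apply, hz, Pi.zero_apply, mul_zero]
  exact characteristic_mul_top_le hr hf h1 hg h2

theorem in_mul {f g : ℂ → ℂ} (hf : G.In f) (hg : G.In g) : G.In (f * g) :=
  ⟨hf.1.mul hg.1, G.of_le' (G.add_mem _ _ hf.2 hg.2) fun _ hr => char_mul_le hf.1 hg.1 hr⟩

theorem in_inv {f : ℂ → ℂ} (hf : G.In f) : G.In f⁻¹ :=
  ⟨hf.1.inv, G.of_le' (G.add_mem _ _ hf.2 (G.const_mem (fmt f))) fun r _ => inv_le hf.1 r⟩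

theorem in_deriv {f : ℂ → ℂ} (hf : G.In f) : G.In (deriv f) := by
  obtain ⟨C, E, hC, hE, h⟩ := char_deriv hf.1
  refine ⟨hf.1.deriv, G.of_le _ _ E (G.smul_mem (G.add_mem _ _ hf.2 G.log_mem) (fun r hr => ?_) C)
    hE h⟩
  have h1 := Real.log_nonneg hr
  have h2 := characteristic_nonneg (f := f) (a := ⊤) hr
  linarith

variable (G) in
/-- the ring of the meromorphic functions on the plane whose characteristic is in the class -/
noncomputable def ring : Subalgebra ℂ (ℂ → ℂ) where
  carrier := {f | Meromorphic f ∧ G.mem (characteristic f ⊤)}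
  mul_mem' := fun ha hb => in_mul ha hb
  add_mem' := fun ha hb => in_add ha hb
  algebraMap_mem' := fun c => G.in_const c

theorem mem_ring {f : ℂ → ℂ} : f ∈ G.ring ↔ G.In f := Iff.rfl

/-- the characteristic of a polynomial expression -/
theorem char_poly {h : ℂ → ℂ} (hh : Meromorphic h) : ∀ (M : ℕ) (c : ℕ → ℂ → ℂ),
    (∀ k, G.In (c k)) → ∃ u : ℝ → ℝ, G.mem u ∧
      Meromorphic (∑ k ∈ Finset.range (M + 1), c k * h ^ k) ∧
      ∀ r, 1 ≤ r → characteristic (∑ k ∈ Finset.range (M + 1), c k * h ^ k) ⊤ r ≤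
        M * characteristic h ⊤ r + u r := by
  intro M
  induction M with
  | zero =>
    intro c hc
    refine ⟨characteristic (c 0) ⊤, (hc 0).2, ?_, fun r _ => ?_⟩
    · rw [Finset.sum_range_one, pow_zero, mul_one]
      exact (hc 0).1
    · rw [Finset.sum_range_one, pow_zero, mul_one]
      simp
  | succ M ih =>
    intro c hc
    obtain ⟨u, hu, hm, h1⟩ := ih (fun k => c (k + 1)) fun k => hc _
    have e : ∑ k ∈ Finset.range (M + 1 + 1), c k * h ^ k =
        h * (∑ k ∈ Finset.range (M + 1), c (k + 1) * h ^ k) + c 0 := by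
      rw [Finset.sum_range_succ' _ (M + 1), pow_zero, mul_one, Finset.mul_sum]
      congr 1
      refine Finset.sum_congr rfl fun k _ => ?_
      rw [pow_succ]
      ring
    rw [e]
    have hm2 := hh.mul hm
    refine ⟨fun r => u r + characteristic (c 0) ⊤ r + Real.log 2,
      G.add_mem _ _ (G.add_mem _ _ hu (hc 0).2) (G.const_mem _), hm2.add (hc 0).1,
      fun r hr => ?_⟩
    have h2 := characteristic_add_top_le hm2 (hc 0).1 hr
    have h3 := char_mul_le hh hm hr
    have h4 := h1 r hr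
    push_cast
    linarith

/-- a function which is a root of a monic polynomial -/
theorem in_monic {h : ℂ → ℂ} (hh : Meromorphic h) {M : ℕ} {c : ℕ → ℂ → ℂ}
    (hc : ∀ k, G.In (c k)) (he : h ^ (M + 1) =ᶠ[codiscrete ℂ]
      ∑ k ∈ Finset.range (M + 1), c k * h ^ k) : G.In h := by
  obtain ⟨u, hu, -, h1⟩ := char_poly hh M c hc
  refine ⟨hh, G.of_le' hu fun r hr => ?_⟩
  have h2 := h1 r hr
  rw [← characteristic_congr_codiscrete he (by linarith : r ≠ 0), characteristic_pow_top hh,
    Pi.smul_apply] at h2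
  simp only [nsmul_eq_mul, Nat.cast_add, Nat.cast_one] at h2
  linarith

/-- a function which is algebraic over the ring -/
theorem in_alg {h : ℂ → ℂ} (hh : Meromorphic h) : ∀ (m : ℕ) (b : ℕ → ℂ → ℂ),
    (∀ k, G.In (b k)) → (∃ k ≤ m, ¬ ∀ᶠ z in codiscrete ℂ, b k z = 0) →
    (∀ᶠ z in codiscrete ℂ, ∑ k ∈ Finset.range (m + 1), b k z * h z ^ k = 0) → G.In h := by
  intro m
  induction m with
  | zero =>
    rintro b - ⟨k, hk, hne⟩ hs
    exfalso
    apply hne
    filter_upwards [hs] with z hz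
    rw [Nat.le_zero.1 hk]
    simpa using hz
  | succ m ih =>
    intro b hb hne hs
    rcases zero_or (hb (m + 1)).1 with h0 | h0
    · refine ih b hb ?_ ?_
      · obtain ⟨k, hk, hk'⟩ := hne
        refine ⟨k, ?_, hk'⟩
        rcases Nat.le_succ_iff.1 hk with h1 | h1
        · exact h1
        · exact absurd (h1 ▸ h0) hk'
      · filter_upwards [hs, h0] with z h1 h2
        rw [Finset.sum_range_succ, h2, Pi.zero_apply, zero_mul, add_zero] at h1
        exact h1
    · refine in_monic hh (M := m) (c := fun k => (fun _ => (-1 : ℂ)) * (b k * (b (m + 1))⁻¹))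
        (fun k => in_mul (G.in_const (-1)) (in_mul (hb k) (in_inv (hb (m + 1))))) ?_
      filter_upwards [hs, eventually_ne (hb (m + 1)).1 h0] with z h1 h2
      rw [Finset.sum_range_succ] at h1
      rw [Finset.sum_apply, Pi.pow_apply]
      simp only [Pi.mul_apply, Pi.inv_apply, Pi.pow_apply]
      have h3 : ∑ k ∈ Finset.range (m + 1), -1 * (b k z * (b (m + 1) z)⁻¹) * h z ^ k =
          -(b (m + 1) z)⁻¹ * ∑ k ∈ Finset.range (m + 1), b k z * h z ^ k := by
        rw [Finset.mul_sum]
        refine Finset.sum_congr rfl fun k _ => ?_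
        ring
      rw [h3, eq_neg_of_add_eq_zero_left h1]
      field_simp

end GrowthClass

/-- the class of the functions bounded by a multiple of `φ` outside a set of finite measure -/
def bigO (φ : ℝ → ℝ) (hφ : ∀ r, 1 ≤ r → Real.log r + 1 ≤ φ r) : GrowthClass where
  mem u := ∃ (C : ℝ) (E : Set ℝ), volume E < ⊤ ∧ ∀ r, 1 ≤ r → r ∉ E → u r ≤ C * φ r
  log_mem := ⟨1, ∅, by simp, fun r hr _ => by simpa using hφ r hr⟩
  add_mem := by
    rintro u v ⟨C1, E1, h1, h1'⟩ ⟨C2, E2, h2, h2'⟩
    refine ⟨C1 + C2, E1 ∪ E2, lt_of_le_of_lt (measure_union_le _ _)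
      (ENNReal.add_lt_top.2 ⟨h1, h2⟩), fun r hr hrE => ?_⟩
    rw [mem_union, not_or] at hrE
    have e1 := h1' r hr hrE.1
    have e2 := h2' r hr hrE.2
    linarith
  of_le := by
    rintro u v E ⟨C, E', h1, h1'⟩ hE h
    refine ⟨C, E' ∪ E, lt_of_le_of_lt (measure_union_le _ _)
      (ENNReal.add_lt_top.2 ⟨h1, hE⟩), fun r hr hrE => ?_⟩
    rw [mem_union, not_or] at hrE
    exact (h r hr hrE.2).trans (h1' r hr hrE.1)

/-- the class of the functions which are small compared with `ψ` outside sets of finite measure -/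
def littleO (ψ : ℝ → ℝ) (hψ : ∀ ε : ℝ, 0 < ε → ∃ E : Set ℝ, volume E < ⊤ ∧
    ∀ r, 1 ≤ r → r ∉ E → Real.log r + 1 ≤ ε * ψ r) : GrowthClass where
  mem u := ∀ ε : ℝ, 0 < ε → ∃ E : Set ℝ, volume E < ⊤ ∧ ∀ r, 1 ≤ r → r ∉ E → u r ≤ ε * ψ r
  log_mem := hψ
  add_mem := by
    intro u v h1 h2 ε hε
    obtain ⟨E1, h1, h1'⟩ := h1 (ε / 2) (by linarith)
    obtain ⟨E2, h2, h2'⟩ := h2 (ε / 2) (by linarith)
    refine ⟨E1 ∪ E2, lt_of_le_of_lt (measure_union_le _ _)
      (ENNReal.add_lt_top.2 ⟨h1, h2⟩), fun r hr hrE => ?_⟩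
    rw [mem_union, not_or] at hrE
    have e1 := h1' r hr hrE.1
    have e2 := h2' r hr hrE.2
    linarith
  of_le := by
    intro u v E hu hE h ε hε
    obtain ⟨E', h1, h1'⟩ := hu ε hε
    refine ⟨E' ∪ E, lt_of_le_of_lt (measure_union_le _ _)
      (ENNReal.add_lt_top.2 ⟨h1, hE⟩), fun r hr hrE => ?_⟩
    rw [mem_union, not_or] at hrE
    exact (h r hr hrE.2).trans (h1' r hr hrE.1)

end Pool.Agent.E8helper90.ND
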