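import Mathlib

/-!
The logarithmic derivative of an analytic function without zeros in a disc, in terms of the
logarithm of its modulus on the boundary.
-/

set_option autoImplicit false

namespace Pool.Agent.E8helper90.ND

open MeasureTheory Set Metric Real

theorem logDeriv_eq {g : ℂ → ℂ} {R : ℝ} {w : ℂ} (hg : AnalyticOnNhd ℂ g (closedBall 0 R))
    (h0 : ∀ z ∈ closedBall (0 : ℂ) R, g z ≠ 0) (hw : w ∈ ball (0 : ℂ) R) :
    deriv g w / g w =
      circleAverage (fun ζ => (2 * ζ / (ζ - w) ^ 2) • ((Real.log ‖g ζ‖ : ℝ) : ℂ)) 0 R := by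
  have hR : 0 < R := pos_of_mem_ball hw
  have hh : InnerProductSpace.HarmonicOnNhd (fun z => Real.log ‖g z‖) (closedBall 0 R) :=
    fun z hz => (hg z hz).harmonicAt_log_norm (h0 z hz)
  have hcont : ContinuousOn (fun z => Real.log ‖g z‖) (closedBall 0 R) := by
    apply ContinuousOn.log
    · exact hg.continuousOn.norm
    · intro z hz
      exact norm_ne_zero_iff.2 (h0 z hz)
  have hci : CircleIntegrable (fun z => Real.log ‖g z‖) 0 R :=
    (hcont.mono sphere_subset_closedBall).circleIntegrable hR.le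
  have hci' : CircleIntegrable (fun z => ((Real.log ‖g z‖ : ℝ) : ℂ)) 0 R := by
    refine ContinuousOn.circleIntegrable hR.le ?_
    exact Complex.continuous_ofReal.comp_continuousOn (hcont.mono sphere_subset_closedBall)
  let H : ℂ → ℂ := fun w => circleAverage
    (fun ζ => herglotzRieszKernel 0 w ζ • ((Real.log ‖g ζ‖ : ℝ) : ℂ)) 0 R
  have hH : ∀ w ∈ ball (0 : ℂ) R, HasDerivAt H (circleAverage
      (fun ζ => (2 * ζ / (ζ - w) ^ 2) • ((Real.log ‖g ζ‖ : ℝ) : ℂ)) 0 R) w :=
    fun w hw => hasDerivAt_circleAverage_herglotzRieszKernel_smul hci' hw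
  have hre : ∀ w ∈ ball (0 : ℂ) R, (H w).re = Real.log ‖g w‖ := by
    intro w hw
    rw [re_circleAverage_herglotzRieszKernel_smul hci hw]
    exact hh.circleAverage_re_herglotzRieszKernel_smul hw
  let φ : ℂ → ℂ := fun z => g z * Complex.exp (-H z)
  have hnorm : ∀ z ∈ ball (0 : ℂ) R, ‖φ z‖ = 1 := by
    intro z hz
    have h1 : g z ≠ 0 := h0 z (ball_subset_closedBall hz)
    simp only [φ, norm_mul, Complex.norm_exp, Complex.neg_re, hre z hz, Real.exp_neg]
    rw [Real.exp_log (norm_pos_iff.2 h1), mul_inv_cancel₀ (norm_ne_zero_iff.2 h1)]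
  have hd : ∀ z ∈ ball (0 : ℂ) R, HasDerivAt φ (deriv g z * Complex.exp (-H z) +
      g z * (Complex.exp (-H z) * -circleAverage
        (fun ζ => (2 * ζ / (ζ - z) ^ 2) • ((Real.log ‖g ζ‖ : ℝ) : ℂ)) 0 R)) z := by
    intro z hz
    exact ((hg z (ball_subset_closedBall hz)).differentiableAt.hasDerivAt).mul
      ((hH z hz).neg.cexp)
  have hφd : DifferentiableOn ℂ φ (ball 0 R) := fun z hz =>
    (hd z hz).differentiableAt.differentiableWithinAt
  have hconst : EqOn φ (Function.const ℂ (φ w)) (ball 0 R) := by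
    refine Complex.eqOn_of_isPreconnected_of_isMaxOn_norm (convex_ball _ _).isPreconnected
      isOpen_ball hφd hw ?_
    intro z hz
    simp only [mem_setOf_eq, Function.comp_apply]
    rw [hnorm z hz, hnorm w hw]
  have h1 : deriv φ w = 0 := by
    have h2 : φ =ᶠ[nhds w] Function.const ℂ (φ w) :=
      Filter.eventuallyEq_of_mem (isOpen_ball.mem_nhds hw) hconst
    rw [h2.deriv_eq]
    exact deriv_const w (φ w)
  rw [(hd w hw).deriv] at h1
  have h2 : Complex.exp (-H w) ≠ 0 := Complex.exp_ne_zero _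
  have h3 : g w ≠ 0 := h0 w (ball_subset_closedBall hw)
  rw [div_eq_iff h3]
  have h4 : Complex.exp (-H w) * (deriv g w - circleAverage
      (fun ζ => (2 * ζ / (ζ - w) ^ 2) • ((Real.log ‖g ζ‖ : ℝ) : ℂ)) 0 R * g w) = 0 := by
    linear_combination h1
  rcases mul_eq_zero.1 h4 with h5 | h5
  · exact absurd h5 h2
  · linear_combination h5

theorem norm_logDeriv_le {g : ℂ → ℂ} {R : ℝ} {w : ℂ} (hg : AnalyticOnNhd ℂ g (closedBall 0 R))
    (h0 : ∀ z ∈ closedBall (0 : ℂ) R, g z ≠ 0) (hw : w ∈ ball (0 : ℂ) R) :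
    ‖deriv g w / g w‖ ≤ 2 * R / (R - ‖w‖) ^ 2 *
      circleAverage (fun ζ => |Real.log ‖g ζ‖|) 0 R := by
  have hR : 0 < R := pos_of_mem_ball hw
  have hwR : ‖w‖ < R := by simpa using hw
  have hcont : ContinuousOn (fun z => Real.log ‖g z‖) (closedBall 0 R) := by
    apply ContinuousOn.log
    · exact hg.continuousOn.norm
    · intro z hz
      exact norm_ne_zero_iff.2 (h0 z hz)
  have hci : CircleIntegrable (fun z => |Real.log ‖g z‖|) 0 R :=
    (hcont.mono sphere_subset_closedBall).abs.circleIntegrable hR.le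
  rw [logDeriv_eq hg h0 hw, circleAverage_def, circleAverage_def, norm_smul, smul_eq_mul,
    ← mul_assoc, mul_comm (2 * R / (R - ‖w‖) ^ 2), mul_assoc, Real.norm_eq_abs,
    abs_of_pos (by positivity)]
  refine mul_le_mul_of_nonneg_left ?_ (by positivity)
  rw [← intervalIntegral.integral_const_mul]
  refine intervalIntegral.norm_integral_le_of_norm_le (by positivity) ?_ (hci.const_mul _)
  refine Filter.Eventually.of_forall fun θ _ => ?_
  have h1 : ‖circleMap 0 R θ‖ = R := by simp [abs_of_pos hR]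
  have h2 : R - ‖w‖ ≤ ‖circleMap 0 R θ - w‖ := by
    have := norm_sub_norm_le (circleMap 0 R θ) w
    rwa [h1] at this
  have h3 : 0 < R - ‖w‖ := by linarith
  rw [smul_eq_mul, norm_mul, Complex.norm_real, Real.norm_eq_abs]
  refine mul_le_mul_of_nonneg_right ?_ (abs_nonneg _)
  rw [norm_div, norm_mul, norm_pow, h1]
  have h4 : ‖(2 : ℂ)‖ = 2 := by norm_num
  rw [h4]
  gcongr

end Pool.Agent.E8helper90.ND
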