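import Pool.Agent.E8helper90.ND.LogA

/-!
The logarithmic derivative of a meromorphic function in a disc (Poisson-Jensen).
-/

set_option autoImplicit false

namespace Pool.Agent.E8helper90.ND

open MeasureTheory Set Metric Real Filter Topology MeromorphicOn Complex

theorem logDeriv_cf {R : ℝ} {u z : ℂ} (hu : u ∈ ball (0 : ℂ) R) (hz : z ∈ ball (0 : ℂ) R)
    (hzu : z ≠ u) : ‖logDeriv (canonicalFactor R u) z‖ ≤ 1 / (R - ‖z‖) + 1 / ‖z - u‖ := by
  have hR : 0 < R := pos_of_mem_ball hu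
  have hu' : ‖u‖ < R := by simpa using hu
  have hz' : ‖z‖ < R := by simpa using hz
  have h1 : z - u ≠ 0 := sub_ne_zero.2 hzu
  have h5 : R * (R - ‖z‖) ≤ ‖(R : ℂ) ^ 2 - (starRingEnd ℂ) u * z‖ := by
    have h6 := norm_sub_norm_le ((R : ℂ) ^ 2) ((starRingEnd ℂ) u * z)
    rw [norm_pow, norm_mul, Complex.norm_conj, Complex.norm_real, Real.norm_eq_abs, sq_abs] at h6
    have h7 : ‖u‖ * ‖z‖ ≤ R * ‖z‖ := by
      have := norm_nonneg z
      gcongr
    nlinarith
  have h8 : 0 < R - ‖z‖ := by linarith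
  have h9 : (R : ℂ) ^ 2 - (starRingEnd ℂ) u * z ≠ 0 := by
    intro h
    rw [h, norm_zero] at h5
    have := mul_pos hR h8
    linarith
  have hRc : (R : ℂ) ≠ 0 := by exact_mod_cast hR.ne'
  have h2 : logDeriv (canonicalFactor R u) z =
      -((starRingEnd ℂ) u / ((R : ℂ) ^ 2 - (starRingEnd ℂ) u * z)) - 1 / (z - u) := by
    have d1 : HasDerivAt (fun z : ℂ => (R : ℂ) ^ 2 - (starRingEnd ℂ) u * z)
        (-(starRingEnd ℂ) u) z := by
      have := ((hasDerivAt_id' z).const_mul ((starRingEnd ℂ) u)).const_sub ((R : ℂ) ^ 2)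
      simpa using this
    have d2 : HasDerivAt (fun z : ℂ => (R : ℂ) * (z - u)) (R : ℂ) z := by
      have := ((hasDerivAt_id' z).sub_const u).const_mul (R : ℂ)
      simpa using this
    have h3 : canonicalFactor R u = fun z => ((R : ℂ) ^ 2 - (starRingEnd ℂ) u * z) /
        ((R : ℂ) * (z - u)) := rfl
    have h10 := logDeriv_div (f := fun z : ℂ => (R : ℂ) ^ 2 - (starRingEnd ℂ) u * z)
      (g := fun z : ℂ => (R : ℂ) * (z - u)) z h9 (mul_ne_zero hRc h1) d1.differentiableAt
      d2.differentiableAt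
    rw [h3, h10, logDeriv_apply, logDeriv_apply, d1.deriv, d2.deriv]
    field_simp
  rw [h2]
  refine (norm_sub_le _ _).trans (add_le_add ?_ ?_)
  · rw [norm_neg, norm_div, Complex.norm_conj, div_le_div_iff₀ (by
      have := norm_pos_iff.2 h9
      linarith) h8]
    calc ‖u‖ * (R - ‖z‖) ≤ R * (R - ‖z‖) := by gcongr
      _ ≤ _ := by rw [one_mul]; exact h5
  · rw [norm_div, norm_one]

/-- the estimate of the logarithmic derivative -/
theorem logDeriv_le {f : ℂ → ℂ} {R : ℝ} {z : ℂ} (hf : MeromorphicOn f (closedBall 0 R))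
    (hne : ∀ u ∈ closedBall (0 : ℂ) R, meromorphicOrderAt f u ≠ ⊤)
    (hS : ∀ u ∈ sphere (0 : ℂ) R, meromorphicOrderAt f u = 0) (hz : z ∈ ball (0 : ℂ) R)
    (hfz : AnalyticAt ℂ f z) (hfz0 : f z ≠ 0) (S : Finset ℂ)
    (hSS : ∀ u, divisor f (ball 0 R) u ≠ 0 → u ∈ S) (hSB : ∀ u ∈ S, u ∈ ball (0 : ℂ) R)
    (hzS : z ∉ S) :
    ‖logDeriv f z‖ ≤ 2 * R / (R - ‖z‖) ^ 2 * circleAverage (fun ζ => |Real.log ‖f ζ‖|) 0 R +
      ∑ u ∈ S, |(divisor f (ball 0 R) u : ℝ)| * (1 / (R - ‖z‖) + 1 / ‖z - u‖) := by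
  have hR : 0 < R := pos_of_mem_ball hz
  have hz' : ‖z‖ < R := by simpa using hz
  obtain ⟨g, D⟩ := hf.exists_ecanonicalDecomp (fun u => hne u u.2)
  have hdS : ∀ v, divisor f (sphere 0 R) v = 0 := by
    intro v
    by_cases hv : v ∈ sphere (0 : ℂ) R
    · rw [divisor_apply (hf.mono_set sphere_subset_closedBall) hv, hS v hv]
      rfl
    · exact Function.locallyFinsuppWithin.apply_eq_zero_of_notMem _ hv
  let P : ℂ → ℂ := fun z => ∏ u ∈ S, canonicalFactor R u z ^ (-divisor f (ball 0 R) u)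
  have hP : ((∏ᶠ u, (canonicalFactor R u) ^ (-divisor f (ball 0 R) u))
    * (∏ᶠ v, (· - v) ^ (divisor f (sphere 0 R)) v)) = P := by
    have h1 : (∏ᶠ v : ℂ, ((fun x : ℂ => x - v) ^ (divisor f (sphere 0 R)) v : ℂ → ℂ)) = 1 := by
      rw [← finprod_one]
      refine finprod_congr fun v => ?_
      rw [hdS v, zpow_zero]
    rw [h1, mul_one, finprod_eq_prod_of_mulSupport_subset (s := S)]
    · funext x
      simp [P, Finset.prod_apply]
    · intro u hu
      rw [Function.mem_mulSupport] at hu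
      apply hSS
      intro h0
      apply hu
      rw [h0, neg_zero, zpow_zero]
  have heq := D.eventuallyEq
  rw [hP] at heq
  have hPz : AnalyticAt ℂ P z := by
    refine Finset.analyticAt_fun_prod _ fun u hu => ?_
    have hzu : z ≠ u := fun h => hzS (h ▸ hu)
    exact (analyticOnNhd_canonicalFactor R u z (by simpa using hzu)).fun_zpow
      (canonicalFactor_ne_zero (hSB u hu) (ball_subset_closedBall hz) hzu)
  have hgz : AnalyticAt ℂ g z := D.analyticOnNhd z (ball_subset_closedBall hz)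
  have hloc : f =ᶠ[𝓝[≠] z] fun x => P x * g x := by
    refine MeromorphicAt.eventuallyEq_nhdsNE_of_eventuallyEq_codiscreteWithin_preperfect
      (U := closedBall 0 R) (hf z (ball_subset_closedBall hz)) (hPz.mul hgz).meromorphicAt
      (ball_subset_closedBall hz) ?_ heq
    rw [← closure_ball _ hR.ne']
    exact isOpen_ball.perfect_closure.2
  have hloc' : f =ᶠ[𝓝 z] fun x => P x * g x :=
    (ContinuousAt.eventuallyEq_nhds_iff_eventuallyEq_nhdsNE hfz.continuousAt
      (hPz.mul hgz).continuousAt).1 hloc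
  have hcf0 : ∀ u ∈ S, canonicalFactor R u z ≠ 0 := fun u hu =>
    canonicalFactor_ne_zero (hSB u hu) (ball_subset_closedBall hz) fun h => hzS (h ▸ hu)
  have hPz0 : P z ≠ 0 := Finset.prod_ne_zero_iff.2 fun u hu => zpow_ne_zero _ (hcf0 u hu)
  have hgz0 : g z ≠ 0 := D.ne_zero z (ball_subset_closedBall hz)
  have hcd : ∀ u ∈ S, DifferentiableAt ℂ (canonicalFactor R u) z := fun u hu =>
    (analyticOnNhd_canonicalFactor R u z (by
      have : z ≠ u := fun h => hzS (h ▸ hu)
      simpa using this)).differentiableAt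
  have hld : logDeriv f z = (∑ u ∈ S, ((-divisor f (ball 0 R) u : ℤ) : ℂ) *
      logDeriv (canonicalFactor R u) z) + logDeriv g z := by
    rw [(logDeriv_congr_nhds hloc').eq_of_nhds, logDeriv_mul z hPz0 hgz0 hPz.differentiableAt
      hgz.differentiableAt]
    congr 1
    have h1 := logDeriv_prod (s := S) (x := z)
      (f := fun u => fun x => canonicalFactor R u x ^ (-divisor f (ball 0 R) u))
      (fun u hu => zpow_ne_zero _ (hcf0 u hu)) (fun u hu => by
        exact ((analyticOnNhd_canonicalFactor R u z (by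
          have : z ≠ u := fun h => hzS (h ▸ hu)
          simpa using this)).fun_zpow (hcf0 u hu)).differentiableAt)
    rw [h1]
    refine Finset.sum_congr rfl fun u hu => ?_
    exact logDeriv_fun_zpow (hcd u hu) _
  have hca : circleAverage (fun ζ => |Real.log ‖g ζ‖|) 0 R =
      circleAverage (fun ζ => |Real.log ‖f ζ‖|) 0 R := by
    refine circleAverage_congr_codiscreteWithin ?_ hR.ne'
    have h1 : f =ᶠ[codiscreteWithin (sphere (0 : ℂ) |R|)] P • g := by
      refine heq.filter_mono (codiscreteWithin_mono ?_)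
      rw [abs_of_pos hR]
      exact sphere_subset_closedBall
    filter_upwards [h1, self_mem_codiscreteWithin (sphere (0 : ℂ) |R|)] with ζ h2 h3
    rw [abs_of_pos hR] at h3
    have h4 : ‖P ζ‖ = 1 := by
      simp only [P, norm_prod, norm_zpow]
      refine Finset.prod_eq_one fun u hu => ?_
      rw [norm_canonicalFactor_eval_circle_eq_one (hSB u hu) h3, one_zpow]
    rw [h2, Pi.smul_apply', smul_eq_mul, norm_mul, h4, one_mul]
  rw [hld, add_comm]
  refine (norm_add_le _ _).trans (add_le_add ?_ ?_)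
  · rw [← hca]
    exact norm_logDeriv_le D.analyticOnNhd D.ne_zero hz
  · refine (norm_sum_le _ _).trans (Finset.sum_le_sum fun u hu => ?_)
    rw [norm_mul, Complex.norm_intCast]
    push_cast
    rw [abs_neg]
    exact mul_le_mul_of_nonneg_left (logDeriv_cf (hSB u hu) hz fun h => hzS (h ▸ hu))
      (abs_nonneg _)

end Pool.Agent.E8helper90.ND
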