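import Pool.Agent.E8helper90.ND.Borel
import Pool.Agent.E8helper90.ND.LogB

/-!
The lemma on the logarithmic derivative.
-/

set_option autoImplicit false

namespace Pool.Agent.E8helper90.ND

open MeasureTheory Set Metric Real Filter Topology MeromorphicOn ValueDistribution
open Function Function.locallyFinsuppWithin

/-- the counting function bounds the number of points -/
theorem count_le {A : Function.locallyFinsupp ℂ ℤ} (hA : 0 ≤ A) {R R' : ℝ} (h1 : 1 ≤ R)
    (h2 : R < R') (S : Finset ℂ) (hS : ∀ u ∈ S, ‖u‖ < R) :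
    (∑ u ∈ S, (A u : ℝ)) * Real.log (R' / R) ≤ Function.locallyFinsuppWithin.logCounting A R' := by
  classical
  have hR' : 0 < R' := by linarith
  have hA' : ∀ u, (0 : ℝ) ≤ (A u : ℝ) := fun u => by exact_mod_cast hA u
  simp only [Function.locallyFinsuppWithin.logCounting, AddMonoidHom.coe_mk, ZeroHom.coe_mk]
  have hfin : (Function.support fun z => ((toClosedBall R' A) z : ℝ) *
      Real.log (R' * ‖z‖⁻¹)).Finite := by
    refine Set.Finite.subset ((toClosedBall R' A).finiteSupport
      (isCompact_closedBall 0 |R'|)) ?_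
    intro z hz
    rw [Function.mem_support] at hz ⊢
    intro h0
    apply hz
    rw [h0]
    simp
  have hterm : ∀ z, 0 ≤ ((toClosedBall R' A) z : ℝ) * Real.log (R' * ‖z‖⁻¹) := by
    intro z
    by_cases hz : z ∈ closedBall (0 : ℂ) |R'|
    · rw [toClosedBall_eval_within A hz]
      refine mul_nonneg (hA' z) ?_
      rcases eq_or_ne z 0 with rfl | hz0
      · simp
      · apply Real.log_nonneg
        rw [← div_eq_mul_inv, le_div_iff₀ (norm_pos_iff.2 hz0), one_mul]
        rw [abs_of_pos hR'] at hz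
        simpa using hz
    · rw [Function.locallyFinsuppWithin.apply_eq_zero_of_notMem _ hz]
      simp
  have hsum : ∑ u ∈ S.erase 0, (A u : ℝ) * Real.log (R' / R) ≤
      ∑ᶠ z, ((toClosedBall R' A) z : ℝ) * Real.log (R' * ‖z‖⁻¹) := by
    rw [finsum_eq_sum_of_support_subset (s := hfin.toFinset ∪ S.erase 0) _ (by
      intro z hz
      simp only [Finset.coe_union, Set.Finite.coe_toFinset]
      exact Or.inl hz)]
    refine le_trans (Finset.sum_le_sum fun u hu => ?_)
      (Finset.sum_le_sum_of_subset_of_nonneg Finset.subset_union_right fun z _ _ => hterm z)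
    have hu0 : u ≠ 0 := Finset.ne_of_mem_erase hu
    have huR := hS u (Finset.mem_of_mem_erase hu)
    have hz : u ∈ closedBall (0 : ℂ) |R'| := by
      rw [abs_of_pos hR']
      simp only [mem_closedBall, dist_zero_right]
      linarith
    rw [toClosedBall_eval_within A hz]
    refine mul_le_mul_of_nonneg_left ?_ (hA' u)
    apply Real.log_le_log (by positivity)
    rw [← div_eq_mul_inv]
    have := norm_pos_iff.2 hu0
    gcongr
  have h0 : (A 0 : ℝ) * Real.log (R' / R) ≤ (A 0 : ℝ) * Real.log R' := by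
    refine mul_le_mul_of_nonneg_left ?_ (hA' 0)
    apply Real.log_le_log (by positivity)
    exact div_le_self hR'.le h1
  have hlog : 0 ≤ Real.log (R' / R) := by
    apply Real.log_nonneg
    rw [le_div_iff₀ (by linarith)]
    linarith
  have hS' : (∑ u ∈ S, (A u : ℝ)) ≤ (∑ u ∈ S.erase 0, (A u : ℝ)) + A 0 := by
    by_cases hmem : (0 : ℂ) ∈ S
    · rw [Finset.sum_erase_add _ _ hmem]
    · rw [Finset.erase_eq_of_notMem hmem]
      linarith [hA' 0]
  calc (∑ u ∈ S, (A u : ℝ)) * Real.log (R' / R)
      ≤ ((∑ u ∈ S.erase 0, (A u : ℝ)) + A 0) * Real.log (R' / R) :=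
        mul_le_mul_of_nonneg_right hS' hlog
    _ = (∑ u ∈ S.erase 0, (A u : ℝ) * Real.log (R' / R)) + A 0 * Real.log (R' / R) := by
        rw [add_mul, Finset.sum_mul]
    _ ≤ _ := add_le_add hsum h0

theorem abs_log_eq (x : ℝ) : |Real.log x| = Real.posLog x + Real.posLog x⁻¹ := by
  unfold Real.posLog
  rw [Real.log_inv]
  rcases le_total 0 (Real.log x) with h | h
  · rw [abs_of_nonneg h, max_eq_right h, max_eq_left (by linarith), add_zero]
  · rw [abs_of_nonpos h, max_eq_left h, max_eq_right (by linarith), zero_add]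

/-- the constant in the first main theorem -/
noncomputable def fmt (f : ℂ → ℂ) : ℝ :=
  max |Real.log ‖f 0‖| |Real.log ‖meromorphicTrailingCoeffAt f 0‖|

theorem fmt_nonneg (f : ℂ → ℂ) : 0 ≤ fmt f := le_max_of_le_left (abs_nonneg _)

theorem inv_le {f : ℂ → ℂ} (hf : Meromorphic f) (R : ℝ) :
    characteristic f⁻¹ ⊤ R ≤ characteristic f ⊤ R + fmt f := by
  have h := characteristic_sub_characteristic_inv_le hf (R := R)
  have h1 := (abs_le.1 h).1
  unfold fmt
  linarith

theorem prox_nonneg {f : ℂ → ℂ} (R : ℝ) : 0 ≤ proximity f ⊤ R := by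
  have := proximity_nonneg (f := f) (a := ⊤) R
  simpa using this

theorem avg_abs_log_le {f : ℂ → ℂ} (hf : Meromorphic f) {R : ℝ} (hR : 1 ≤ R) :
    circleAverage (fun ζ => |Real.log ‖f ζ‖|) 0 R ≤ 2 * characteristic f ⊤ R + fmt f := by
  have h1 : (fun ζ => |Real.log ‖f ζ‖|) =
      (fun ζ => Real.posLog ‖f ζ‖) + fun ζ => Real.posLog ‖f⁻¹ ζ‖ := by
    funext ζ
    rw [Pi.add_apply, Pi.inv_apply, norm_inv]
    exact abs_log_eq _
  rw [h1, circleAverage_add hf.meromorphicOn.circleIntegrable_posLog_norm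
    hf.inv.meromorphicOn.circleIntegrable_posLog_norm]
  have h2 : circleAverage (fun ζ => Real.posLog ‖f ζ‖) 0 R ≤ characteristic f ⊤ R := by
    have h3 : circleAverage (fun ζ => Real.posLog ‖f ζ‖) 0 R = proximity f ⊤ R := by
      rw [proximity_top]
    rw [h3]
    unfold characteristic
    have := logCounting_nonneg (f := f) (e := ⊤) hR
    rw [Pi.add_apply]
    linarith
  have h2' : circleAverage (fun ζ => Real.posLog ‖f⁻¹ ζ‖) 0 R ≤ characteristic f⁻¹ ⊤ R := by
    have h3 : circleAverage (fun ζ => Real.posLog ‖f⁻¹ ζ‖) 0 R = proximity f⁻¹ ⊤ R := by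
      rw [proximity_top]
    rw [h3]
    unfold characteristic
    have := logCounting_nonneg (f := f⁻¹) (e := ⊤) hR
    rw [Pi.add_apply]
    linarith
  have h4 := inv_le hf R
  linarith

theorem counting_le {f : ℂ → ℂ} (hf : Meromorphic f) (R : ℝ) :
    logCounting f 0 R + logCounting f ⊤ R ≤ 2 * characteristic f ⊤ R + fmt f := by
  have h1 : logCounting f ⊤ R ≤ characteristic f ⊤ R := by
    unfold characteristic
    rw [Pi.add_apply]
    linarith [prox_nonneg (f := f) R]
  have h2 : logCounting f 0 R ≤ characteristic f⁻¹ ⊤ R := by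
    unfold characteristic
    rw [Pi.add_apply, logCounting_inv]
    linarith [prox_nonneg (f := f⁻¹) R]
  have h3 := inv_le hf R
  linarith

end Pool.Agent.E8helper90.ND
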