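import Pool.Agent.E8helper90.ND.LogC

/-!
The lemma on the logarithmic derivative, conclusion.
-/

set_option autoImplicit false

namespace Pool.Agent.E8helper90.ND

open MeasureTheory Set Metric Real Filter Topology MeromorphicOn ValueDistribution
open Function Function.locallyFinsuppWithin

/-- an average over a circle of a function which is bounded on a codiscrete set -/
theorem avg_le_of_codiscrete {h : ℂ → ℝ} {r M : ℝ} (hr : 0 < r) (hM : 0 ≤ M)
    (hb : ∀ᶠ z in codiscreteWithin (sphere (0 : ℂ) |r|), h z ≤ M)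
    (hi : CircleIntegrable h 0 r) : circleAverage h 0 r ≤ M := by
  classical
  let k : ℂ → ℝ := fun z => if h z ≤ M then h z else M
  have h1 : h =ᶠ[codiscreteWithin (sphere (0 : ℂ) |r|)] k := by
    filter_upwards [hb] with z hz
    simp only [k, if_pos hz]
  rw [circleAverage_congr_codiscreteWithin h1 hr.ne']
  have h2 : CircleIntegrable k 0 r := hi.congr_codiscreteWithin h1
  refine circleAverage_mono_on_of_le_circle h2 fun z _ => ?_
  simp only [k]
  split_ifs with h3
  · exact h3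
  · exact le_rfl

/-- the zeros and the poles -/
def ZP (f : ℂ → ℂ) : Set ℂ := {z | meromorphicOrderAt f z ≠ 0}

theorem zp_finite {f : ℂ → ℂ} (hf : Meromorphic f) (hne : ∀ z, meromorphicOrderAt f z ≠ ⊤)
    (t : ℝ) : (ZP f ∩ closedBall 0 t).Finite := by
  have h1 : (ZP f ∩ closedBall 0 t) ⊆ (divisor f (closedBall 0 t)).support := by
    rintro z ⟨hz, hzt⟩
    rw [Function.mem_support, divisor_apply hf.meromorphicOn hzt]
    intro h0
    rcases WithTop.untop₀_eq_zero.1 h0 with h2 | h2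
    · exact hz h2
    · exact hne z h2
  exact ((divisor f (closedBall 0 t)).finiteSupport (isCompact_closedBall 0 t)).subset h1

theorem numbers {T r R c n k : ℝ} (hT : 1 ≤ T) (hr : 1 ≤ r) (hc : 0 ≤ c)
    (hR1 : r + 1 / T / 4 < R) (hR2 : R < r + 1 / T / 2) (_hn : 0 ≤ n) (hk : k ≤ n)
    (hk0 : 0 ≤ k) (hnL : n * Real.log ((r + 1 / T) / R) ≤ 4 * T + c) :
    2 * R / (R - r) ^ 2 * (4 * T + c) + n * (1 / (R - r) + (1 + k) ^ 2) ≤
      21 * (16 * (1 + c) * T ^ 2 * r) ^ 3 := by
  have hT0 : 0 < T := by linarith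
  have hd : 1 / T ≤ 1 := by
    rw [div_le_one hT0]
    exact hT
  have hd0 : 0 < 1 / T := by positivity
  have hRr : 0 < R - r := by linarith
  have hR0 : 0 < R := by linarith
  have e1 : 1 / (R - r) ≤ 4 * T := by
    rw [div_le_iff₀ hRr]
    have : 4 * T * (1 / T / 4) = 1 := by field_simp
    nlinarith
  have hlog : 1 / T / (4 * r) ≤ Real.log ((r + 1 / T) / R) := by
    have h1 : Real.log ((r + 1 / T) / R) = -Real.log (R / (r + 1 / T)) := by
      rw [← Real.log_inv, inv_div]
    rw [h1]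
    have h2 := Real.log_le_sub_one_of_pos (x := R / (r + 1 / T)) (by positivity)
    have h3 : 1 - R / (r + 1 / T) = (r + 1 / T - R) / (r + 1 / T) := by
      field_simp
    have h4 : 1 / T / (4 * r) ≤ (r + 1 / T - R) / (r + 1 / T) := by
      rw [div_le_div_iff₀ (by positivity) (by positivity)]
      have h5 : r + 1 / T ≤ 2 * r := by linarith
      have h6 : 1 / T / 2 ≤ r + 1 / T - R := by linarith
      calc 1 / T * (r + 1 / T) ≤ 1 / T * (2 * r) := by gcongr
        _ = 1 / T / 2 * (4 * r) := by ring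
        _ ≤ _ := by gcongr
    linarith
  obtain ⟨Q, hQ⟩ : ∃ Q : ℝ, Q = 16 * (1 + c) * T ^ 2 * r := ⟨_, rfl⟩
  have hT2 : 1 ≤ T ^ 2 := one_le_pow₀ hT
  have hnQ : n ≤ Q := by
    have h1 : n * (1 / T / (4 * r)) ≤ 4 * T + c :=
      (mul_le_mul_of_nonneg_left hlog _hn).trans hnL
    have h2 : n = n * (1 / T / (4 * r)) * (T * (4 * r)) := by
      field_simp
    rw [h2]
    calc n * (1 / T / (4 * r)) * (T * (4 * r)) ≤ (4 * T + c) * (T * (4 * r)) := by gcongr
      _ ≤ (4 * (1 + c) * T) * (T * (4 * r)) := by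
        gcongr
        nlinarith
      _ = Q := by
        rw [hQ]
        ring
  have hQT : 16 * T ≤ Q := by
    rw [hQ]
    have h1 : T ≤ T ^ 2 := by nlinarith
    calc 16 * T ≤ 16 * T ^ 2 := by linarith
      _ ≤ 16 * (1 + c) * T ^ 2 * r := by
        have h2 : 1 * 1 ≤ (1 + c) * r := by gcongr; linarith
        nlinarith
  have hQ16 : 16 ≤ Q := by linarith
  have e2 : 2 * R / (R - r) ^ 2 * (4 * T + c) ≤ 16 * Q ^ 2 := by
    have h1 : 2 * R / (R - r) ^ 2 = 2 * R * (1 / (R - r)) ^ 2 := by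
      field_simp
    rw [h1]
    have h2 : 2 * R ≤ 4 * r := by linarith
    calc 2 * R * (1 / (R - r)) ^ 2 * (4 * T + c)
        ≤ 4 * r * (4 * T) ^ 2 * (4 * (1 + c) * T) := by
          gcongr
          nlinarith
      _ = 16 * T * (16 * (1 + c) * T ^ 2 * r) := by ring
      _ ≤ Q * Q := by
          rw [← hQ]
          gcongr
      _ ≤ 16 * Q ^ 2 := by nlinarith
  have e3 : n * (1 / (R - r) + (1 + k) ^ 2) ≤ Q * (Q + (2 * Q) ^ 2) := by
    have h1 : (1 + k) ^ 2 ≤ (2 * Q) ^ 2 := by
      apply pow_le_pow_left₀ (by linarith)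
      linarith
    have h2 : 1 / (R - r) ≤ Q := by linarith
    have h3 : 0 < 1 / (R - r) := by positivity
    gcongr
  rw [← hQ]
  have h5 : Q ^ 2 ≤ Q ^ 3 / 16 := by nlinarith [sq_nonneg Q]
  nlinarith

/-- the estimate on a circle which is not close to zeros or poles -/
theorem lld_circle {f : ℂ → ℂ} (hf : Meromorphic f) (hne : ∀ z, meromorphicOrderAt f z ≠ ⊤)
    {r : ℝ} (hr : 1 ≤ r)
    (hgrow : characteristic f ⊤ (r + 1 / (characteristic f ⊤ r + 1)) + 1 ≤
      2 * (characteristic f ⊤ r + 1))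
    (hav : ∀ u ∈ ZP f, ∀ R, ‖u‖ ≤ R → 1 / (1 + (cnt (ZP f) R : ℝ)) ^ 2 ≤ |r - ‖u‖|) :
    ∀ᶠ z in codiscreteWithin (sphere (0 : ℂ) |r|), ‖logDeriv f z‖ ≤
      21 * (16 * (1 + fmt f) * (characteristic f ⊤ r + 1) ^ 2 * r) ^ 3 := by
  classical
  have hr0 : 0 < r := by linarith
  obtain ⟨T, hT⟩ : ∃ T : ℝ, T = characteristic f ⊤ r + 1 := ⟨_, rfl⟩
  rw [← hT] at hgrow ⊢
  have hT1 : 1 ≤ T := by
    have := characteristic_nonneg (f := f) (a := ⊤) hr
    linarith
  have hT0 : 0 < T := by linarith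
  have hd0 : 0 < 1 / T := by positivity
  obtain ⟨R, hRm, hRS⟩ : ∃ R ∈ Ioo (r + 1 / T / 4) (r + 1 / T / 2),
      R ∉ (fun u : ℂ => ‖u‖) '' (ZP f ∩ closedBall 0 (r + 1 / T)) := by
    have h1 : (Ioo (r + 1 / T / 4) (r + 1 / T / 2)).Infinite := by
      apply Ioo_infinite
      linarith
    exact (h1.diff ((zp_finite hf hne _).image _)).nonempty
  obtain ⟨hR1, hR2⟩ := hRm
  have hRr : r < R := by linarith
  have hR0 : 0 < R := by linarith
  have hsph : ∀ u ∈ sphere (0 : ℂ) R, meromorphicOrderAt f u = 0 := by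
    intro u hu
    by_contra hcon
    apply hRS
    have hu' : ‖u‖ = R := by simpa using hu
    refine ⟨u, ⟨hcon, ?_⟩, hu'⟩
    simp only [mem_closedBall, dist_zero_right]
    linarith
  let S : Finset ℂ := (zp_finite hf hne R).toFinset
  have hSmem : ∀ u, u ∈ S ↔ meromorphicOrderAt f u ≠ 0 ∧ ‖u‖ ≤ R := by
    intro u
    simp only [S, Set.Finite.mem_toFinset, mem_inter_iff, mem_closedBall, dist_zero_right]
    rfl
  have hSlt : ∀ u ∈ S, ‖u‖ < R := by
    intro u hu
    obtain ⟨h1, h2⟩ := (hSmem u).1 hu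
    rcases lt_or_eq_of_le h2 with h3 | h3
    · exact h3
    · exact absurd (hsph u (by simpa using h3)) h1
  have hSB : ∀ u ∈ S, u ∈ ball (0 : ℂ) R := fun u hu => by simpa using hSlt u hu
  have hdiv : ∀ u ∈ S, divisor f (ball 0 R) u = divisor f univ u := by
    intro u hu
    rw [divisor_apply hf.meromorphicOn (hSB u hu), divisor_apply hf.meromorphicOn (mem_univ u)]
  have hSS : ∀ u, divisor f (ball 0 R) u ≠ 0 → u ∈ S := by
    intro u hu
    by_cases hub : u ∈ ball (0 : ℂ) R
    · rw [divisor_apply hf.meromorphicOn hub] at hu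
      rw [hSmem]
      refine ⟨fun h0 => hu (by rw [h0]; rfl), ?_⟩
      have : ‖u‖ < R := by simpa using hub
      exact this.le
    · exact absurd (Function.locallyFinsuppWithin.apply_eq_zero_of_notMem _ hub) hu
  have hcard : cnt (ZP f) R = S.card := by
    unfold cnt
    rw [Set.ncard_eq_toFinset_card _ (zp_finite hf hne R)]
  obtain ⟨n, hn⟩ : ∃ n : ℝ, n = ∑ u ∈ S, |(divisor f (ball 0 R) u : ℝ)| := ⟨_, rfl⟩
  have hn0 : 0 ≤ n := by
    rw [hn]
    exact Finset.sum_nonneg fun u _ => abs_nonneg _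
  have hkn : (cnt (ZP f) R : ℝ) ≤ n := by
    rw [hcard, hn, Finset.card_eq_sum_ones]
    push_cast
    refine Finset.sum_le_sum fun u hu => ?_
    have h1 : divisor f (ball 0 R) u ≠ 0 := by
      rw [divisor_apply hf.meromorphicOn (hSB u hu)]
      intro h0
      rcases WithTop.untop₀_eq_zero.1 h0 with h2 | h2
      · exact ((hSmem u).1 hu).1 h2
      · exact hne u h2
    have h2 := Int.one_le_abs h1
    exact_mod_cast h2
  have hnL : n * Real.log ((r + 1 / T) / R) ≤ 4 * T + fmt f := by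
    have h1 := count_le (A := (divisor f univ)⁺ + (divisor f univ)⁻)
      (add_nonneg (posPart_nonneg _) (negPart_nonneg _)) (by linarith : (1 : ℝ) ≤ R)
      (by linarith : R < r + 1 / T) S hSlt
    rw [map_add, Pi.add_apply, ← logCounting_zero, ← logCounting_top] at h1
    have h2 : n = ∑ u ∈ S, (((divisor f univ)⁺ + (divisor f univ)⁻) u : ℝ) := by
      rw [hn]
      refine Finset.sum_congr rfl fun u hu => ?_
      rw [hdiv u hu]
      have h3 : (((divisor f univ)⁺ + (divisor f univ)⁻) u : ℤ) = |divisor f univ u| := by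
        rw [Function.locallyFinsuppWithin.coe_add, Pi.add_apply,
          Function.locallyFinsuppWithin.posPart_apply,
          Function.locallyFinsuppWithin.negPart_apply]
        exact posPart_add_negPart _
      have h4 := congrArg (fun m : ℤ => (m : ℝ)) h3
      simp only [Int.cast_abs] at h4
      rw [← h4]
    rw [h2]
    refine h1.trans ((counting_le hf _).trans ?_)
    linarith
  have hca : circleAverage (fun ζ => |Real.log ‖f ζ‖|) 0 R ≤ 4 * T + fmt f := by
    refine (avg_abs_log_le hf (by linarith)).trans ?_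
    have h1 : characteristic f ⊤ R ≤ characteristic f ⊤ (r + 1 / T) :=
      characteristic_monotoneOn hf (by simp only [mem_Ioi]; linarith)
        (by simp only [mem_Ioi]; linarith) (by linarith)
    linarith
  have hfin := numbers hT1 hr (fmt_nonneg f) hR1 hR2 hn0 hkn (by positivity) hnL
  have han : ∀ᶠ z in codiscreteWithin (sphere (0 : ℂ) |r|), AnalyticAt ℂ f z :=
    (hf.meromorphicOn (s := sphere (0 : ℂ) |r|)).analyticAt_mem_codiscreteWithin
  have hnz : ∀ᶠ z in codiscreteWithin (sphere (0 : ℂ) |r|), f z ≠ 0 :=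
    (hf.meromorphicOn (s := sphere (0 : ℂ) |r|)).eventually_codiscreteWithin_apply_ne_zero
      fun x _ => hne x
  filter_upwards [han, hnz, self_mem_codiscreteWithin (sphere (0 : ℂ) |r|)] with z h1 h2 h3
  rw [abs_of_pos hr0] at h3
  have hz : ‖z‖ = r := by simpa using h3
  have hzS : z ∉ S := by
    intro hzS
    have h4 := hav z ((hSmem z).1 hzS).1 R ((hSmem z).1 hzS).2
    rw [hz, sub_self, abs_zero] at h4
    have : 0 < 1 / (1 + (cnt (ZP f) R : ℝ)) ^ 2 := by positivity
    linarith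
  have h5 := logDeriv_le (hf.meromorphicOn (s := closedBall 0 R)) (fun u _ => hne u) hsph
    (z := z) (by simp only [mem_ball, dist_zero_right]; linarith) h1 h2 S hSS hSB hzS
  rw [hz] at h5
  refine h5.trans (le_trans (add_le_add ?_ ?_) hfin)
  · refine mul_le_mul_of_nonneg_left hca ?_
    have : 0 < R - r := by linarith
    positivity
  · rw [hn, Finset.sum_mul]
    refine Finset.sum_le_sum fun u hu => ?_
    refine mul_le_mul_of_nonneg_left ?_ (abs_nonneg _)
    have h6 := hav u ((hSmem u).1 hu).1 R ((hSmem u).1 hu).2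
    have h7 : |r - ‖u‖| ≤ ‖z - u‖ := by
      rw [← hz]
      exact abs_norm_sub_norm_le z u
    have h8 : 1 / ‖z - u‖ ≤ (1 + (cnt (ZP f) R : ℝ)) ^ 2 := by
      have h9 : 0 < 1 / (1 + (cnt (ZP f) R : ℝ)) ^ 2 := by positivity
      have h10 : 0 < ‖z - u‖ := by linarith
      rw [div_le_iff₀ h10]
      have h11 : 1 / (1 + (cnt (ZP f) R : ℝ)) ^ 2 ≤ ‖z - u‖ := h6.trans h7
      rw [div_le_iff₀ (by positivity)] at h11
      linarith
    linarith

/-- **The lemma on the logarithmic derivative.** -/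
theorem lld {f : ℂ → ℂ} (hf : Meromorphic f) (hne : ∀ z, meromorphicOrderAt f z ≠ ⊤) :
    ∃ (C : ℝ) (E : Set ℝ), 0 ≤ C ∧ volume E < ⊤ ∧ ∀ r, 1 ≤ r → r ∉ E →
      proximity (logDeriv f) ⊤ r ≤
        C * (Real.log (characteristic f ⊤ r + 1) + Real.log r + 1) := by
  obtain ⟨E1, hE1, hB⟩ := borel (fun r => characteristic f ⊤ r + 1)
    (fun a ha b hb hab => add_le_add_left (characteristic_monotoneOn hf ha hb hab) 1)
    (fun r hr => by
      have := characteristic_nonneg (f := f) (a := ⊤) hr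
      linarith)
  obtain ⟨E2, hE2, hA⟩ := avoid (D := ZP f) (zp_finite hf hne)
  refine ⟨6 + Real.log 21 + 3 * Real.log (16 * (1 + fmt f)), E1 ∪ E2, ?_, ?_, ?_⟩
  · have h1 : 0 ≤ Real.log 21 := Real.log_nonneg (by norm_num)
    have h2 : 0 ≤ Real.log (16 * (1 + fmt f)) := by
      apply Real.log_nonneg
      nlinarith [fmt_nonneg f]
    linarith
  · exact lt_of_le_of_lt (measure_union_le _ _) (ENNReal.add_lt_top.2 ⟨hE1, hE2⟩)
  · intro r hr hrE
    rw [mem_union, not_or] at hrE
    have hr0 : 0 < r := by linarith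
    have h1 := lld_circle hf hne hr (hB r hr hrE.1) (hA r hrE.2)
    obtain ⟨T, hT⟩ : ∃ T : ℝ, T = characteristic f ⊤ r + 1 := ⟨_, rfl⟩
    rw [← hT] at h1 ⊢
    have hT1 : 1 ≤ T := by
      have := characteristic_nonneg (f := f) (a := ⊤) hr
      linarith
    have hlT : 0 ≤ Real.log T := Real.log_nonneg hT1
    have hlr : 0 ≤ Real.log r := Real.log_nonneg hr
    have hc := fmt_nonneg f
    obtain ⟨M, hM⟩ : ∃ M : ℝ, M = 21 * (16 * (1 + fmt f) * T ^ 2 * r) ^ 3 := ⟨_, rfl⟩
    rw [← hM] at h1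
    have hMpos : 0 < M := by
      rw [hM]
      positivity
    have hM1 : 1 ≤ M := by
      rw [hM]
      have h2 : 1 ≤ 16 * (1 + fmt f) * T ^ 2 * r := by
        have h3 : 1 ≤ T ^ 2 := one_le_pow₀ hT1
        have h4 : 1 * 1 ≤ T ^ 2 * r := by gcongr
        nlinarith
      have h3 : 1 ≤ (16 * (1 + fmt f) * T ^ 2 * r) ^ 3 := one_le_pow₀ h2
      linarith
    have hlM : Real.log M = Real.log 21 + 3 * (Real.log (16 * (1 + fmt f)) +
        2 * Real.log T + Real.log r) := by
      rw [hM, Real.log_mul (by norm_num) (by positivity), Real.log_pow,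
        Real.log_mul (by positivity) (by positivity), Real.log_mul (by positivity)
        (by positivity), Real.log_pow]
      push_cast
      ring
    rw [proximity_top]
    have hm : Meromorphic (logDeriv f) := hf.deriv.div hf
    have h2 : circleAverage (fun x => Real.posLog ‖logDeriv f x‖) 0 r ≤ Real.log M := by
      refine avg_le_of_codiscrete hr0 (Real.log_nonneg hM1) ?_
        hm.meromorphicOn.circleIntegrable_posLog_norm
      filter_upwards [h1] with z hz
      unfold Real.posLog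
      refine max_le (Real.log_nonneg hM1) ?_
      rcases eq_or_lt_of_le (norm_nonneg (logDeriv f z)) with h3 | h3
      · rw [← h3, Real.log_zero]
        exact Real.log_nonneg hM1
      · exact Real.log_le_log h3 hz
    refine h2.trans ?_
    rw [hlM]
    have h5 : 0 ≤ Real.log 21 := Real.log_nonneg (by norm_num)
    have h6 : 0 ≤ Real.log (16 * (1 + fmt f)) := by
      apply Real.log_nonneg
      nlinarith
    nlinarith [mul_nonneg h5 hlT, mul_nonneg h5 hlr, mul_nonneg h6 hlT, mul_nonneg h6 hlr]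

end Pool.Agent.E8helper90.ND
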