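import Pool.Agent.E8helper90.ND.LogD

/-!
The characteristic of the derivative of a meromorphic function.
-/

set_option autoImplicit false

namespace Pool.Agent.E8helper90.ND

open MeasureTheory Set Metric Real Filter Topology MeromorphicOn ValueDistribution
open Function Function.locallyFinsuppWithin

/-- a meromorphic function vanishes on a codiscrete set or has finite order everywhere -/
theorem zero_or {f : ℂ → ℂ} (hf : Meromorphic f) :
    f =ᶠ[codiscrete ℂ] 0 ∨ ∀ z, meromorphicOrderAt f z ≠ ⊤ := by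
  by_cases h : ∃ z, meromorphicOrderAt f z ≠ ⊤
  · right
    intro z
    exact (hf.exists_meromorphicOrderAt_ne_top_iff_forall).1 h z
  · left
    push Not at h
    rw [Filter.EventuallyEq, Filter.Eventually, mem_codiscrete]
    intro z
    rw [disjoint_principal_right, compl_compl]
    exact meromorphicOrderAt_eq_top_iff.1 (h z)

theorem codis_nhdsNE {P : ℂ → Prop} (h : ∀ᶠ z in codiscrete ℂ, P z) (x : ℂ) :
    ∀ᶠ z in 𝓝[≠] x, P z := by
  rw [Filter.Eventually, mem_codiscrete] at h
  have h1 := h x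
  rwa [disjoint_principal_right, compl_compl] at h1

theorem codis_of_nhdsNE {P : ℂ → Prop} (h : ∀ x, ∀ᶠ z in 𝓝[≠] x, P z) :
    ∀ᶠ z in codiscrete ℂ, P z := by
  rw [Filter.Eventually, mem_codiscrete]
  intro x
  rw [disjoint_principal_right, compl_compl]
  exact h x

theorem eventually_ne {f : ℂ → ℂ} (hf : Meromorphic f) (hne : ∀ z, meromorphicOrderAt f z ≠ ⊤) :
    ∀ᶠ z in codiscrete ℂ, f z ≠ 0 :=
  codis_of_nhdsNE fun x => (meromorphicOrderAt_ne_top_iff_eventually_ne_zero (hf x)).1 (hne x)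

theorem deriv_eq_mul {f : ℂ → ℂ} (hf : Meromorphic f) (hne : ∀ z, meromorphicOrderAt f z ≠ ⊤) :
    deriv f =ᶠ[codiscrete ℂ] f * logDeriv f := by
  filter_upwards [eventually_ne hf hne] with z hz
  rw [Pi.mul_apply, logDeriv_apply]
  field_simp

theorem deriv_zero_codis {f : ℂ → ℂ} (h : f =ᶠ[codiscrete ℂ] 0) :
    deriv f =ᶠ[codiscrete ℂ] 0 := by
  refine codis_of_nhdsNE fun x => ?_
  have h1 : f =ᶠ[𝓝[≠] x] 0 := codis_nhdsNE h x
  have h2 := h1.nhdsNE_deriv
  filter_upwards [h2] with z hz
  rw [hz]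
  simp

theorem divisor_deriv_le {f : ℂ → ℂ} (hf : Meromorphic f)
    (hne : ∀ z, meromorphicOrderAt f z ≠ ⊤) :
    (divisor (deriv f) univ)⁻ ≤ (2 : ℕ) • (divisor f univ)⁻ := by
  intro z
  have hd := hf.deriv
  have hcoe : ((2 : ℕ) • (divisor f univ)⁻) z = 2 * (divisor f univ)⁻ z := by
    rw [two_smul, Function.locallyFinsuppWithin.coe_add, Pi.add_apply]
    ring
  rw [hcoe, Function.locallyFinsuppWithin.negPart_apply,
    Function.locallyFinsuppWithin.negPart_apply,
    divisor_apply hd.meromorphicOn (mem_univ z), divisor_apply hf.meromorphicOn (mem_univ z)]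
  obtain ⟨n, hn⟩ := WithTop.ne_top_iff_exists.1 (hne z)
  rw [← hn, WithTop.untop₀_coe]
  by_cases h0 : n = 0
  · have h1 : 0 ≤ meromorphicOrderAt (deriv f) z := by
      have h2 : deriv f =ᶠ[𝓝[≠] z] f * logDeriv f := codis_nhdsNE (deriv_eq_mul hf hne) z
      have h3 : Meromorphic (logDeriv f) := hf.deriv.div hf
      rw [meromorphicOrderAt_congr h2, meromorphicOrderAt_mul (hf z) (h3 z), ← hn, h0]
      have h4 := meromorphicOrderAt_logDeriv_nonneg (hf z) (by rw [← hn, h0]; rfl)
      simpa using h4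
    have h2 : 0 ≤ (meromorphicOrderAt (deriv f) z).untop₀ := WithTop.untop₀_nonneg.2 h1
    rw [negPart_eq_zero.2 h2, h0]
    simp
  · have h1 := meromorphicOrderAt_deriv_eq_sub_one (f := f) (x := z) (n := n)
      (by exact_mod_cast h0) hn.symm
    rw [h1, WithTop.untop₀_coe]
    rcases lt_or_gt_of_ne h0 with h2 | h2
    · rw [negPart_of_nonpos (by omega : n - 1 ≤ 0), negPart_of_nonpos h2.le]
      have h3 : n ≤ -1 := by omega
      linarith
    · rw [negPart_eq_zero.2 (by omega : (0 : ℤ) ≤ n - 1), negPart_eq_zero.2 h2.le]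
      simp

theorem logCounting_deriv_le {f : ℂ → ℂ} (hf : Meromorphic f)
    (hne : ∀ z, meromorphicOrderAt f z ≠ ⊤) {r : ℝ} (hr : 1 ≤ r) :
    logCounting (deriv f) ⊤ r ≤ 2 * logCounting f ⊤ r := by
  rw [logCounting_top, logCounting_top]
  refine (logCounting_le (divisor_deriv_le hf hne) hr).trans (le_of_eq ?_)
  rw [map_nsmul, Pi.smul_apply]
  simp

/-- the characteristic of the derivative -/
theorem char_deriv {f : ℂ → ℂ} (hf : Meromorphic f) :
    ∃ (C : ℝ) (E : Set ℝ), 0 ≤ C ∧ volume E < ⊤ ∧ ∀ r, 1 ≤ r → r ∉ E →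
      characteristic (deriv f) ⊤ r ≤ C * (characteristic f ⊤ r + (Real.log r + 1)) := by
  rcases zero_or hf with h0 | hne
  · refine ⟨0, ∅, le_rfl, by simp, fun r hr _ => ?_⟩
    rw [characteristic_congr_codiscrete (deriv_zero_codis h0) (by linarith : r ≠ 0), zero_mul]
    have h1 : characteristic (0 : ℂ → ℂ) ⊤ r = 0 := by
      simp [characteristic, proximity_top, circleAverage_const]
    exact h1.le
  · obtain ⟨C, E, hC, hE, h⟩ := lld hf hne
    refine ⟨2 + C, E, by linarith, hE, fun r hr hrE => ?_⟩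
    have h1 : proximity (deriv f) ⊤ r ≤ proximity f ⊤ r + proximity (logDeriv f) ⊤ r := by
      rw [proximity_congr_codiscrete (deriv_eq_mul hf hne) (by linarith : r ≠ 0)]
      exact proximity_mul_top_le hf (hf.deriv.div hf) r
    have h2 := logCounting_deriv_le hf hne hr
    have h3 := h r hr hrE
    have hT := characteristic_nonneg (f := f) (a := ⊤) hr
    have h4 : Real.log (characteristic f ⊤ r + 1) ≤ characteristic f ⊤ r := by
      have := Real.log_le_sub_one_of_pos (by linarith : 0 < characteristic f ⊤ r + 1)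
      linarith
    have h5 : 0 ≤ Real.log r := Real.log_nonneg hr
    have hp : 0 ≤ proximity f ⊤ r := proximity_nonneg r
    have hN : 0 ≤ logCounting f ⊤ r := logCounting_nonneg hr
    have e1 : characteristic (deriv f) ⊤ r = proximity (deriv f) ⊤ r +
        logCounting (deriv f) ⊤ r := rfl
    have e2 : characteristic f ⊤ r = proximity f ⊤ r + logCounting f ⊤ r := rfl
    have h6 : C * (Real.log (characteristic f ⊤ r + 1) + Real.log r + 1) ≤
        C * (characteristic f ⊤ r + (Real.log r + 1)) :=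
      mul_le_mul_of_nonneg_left (by linarith) hC
    rw [e1]
    nlinarith

end Pool.Agent.E8helper90.ND
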