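import Pool.Agent.E8helper90.ND.Gr
import Pool.Agent.Y377.IL.AllC

/-!
Growth of the quotients of forms along entire curves in projective space.
-/

set_option autoImplicit false

namespace Pool.Agent.E8helper90.ND

open MeasureTheory Set Filter Topology MvPolynomial ValueDistribution
open scoped LinearAlgebra.Projectivization
open Pool.Agent.TH143.EL (HolMap InV Rep eval_smul_homog)
open Pool.Agent.Y377.IL (AlgRatio DB AlgebraicAlong)

variable {N : ℕ}

theorem an_eval {g : Fin (N + 1) → ℂ → ℂ} {a : ℂ} (hg : ∀ j, AnalyticAt ℂ (g j) a)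
    (P : MvPolynomial (Fin (N + 1)) ℂ) : AnalyticAt ℂ (fun z => eval (fun j => g j z) P) a := by
  induction P using MvPolynomial.induction_on with
  | C c => simpa using analyticAt_const
  | add p q hp hq => simp only [map_add]; exact hp.add hq
  | mul_X p j hp => simp only [map_mul, eval_X]; exact hp.mul (hg j)

theorem rep_local {f : ℂ → ℙ ℂ (Fin (N + 1) → ℂ)} (hf : HolMap f) (a : ℂ) :
    ∃ g : Fin (N + 1) → ℂ → ℂ, (∀ j, AnalyticAt ℂ (g j) a) ∧
      ∀ᶠ z in 𝓝 a, ∃ c : ℂ, c ≠ 0 ∧ (f z).rep = fun j => c * g j z := by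
  obtain ⟨g, hg, hr⟩ := hf a
  refine ⟨g, hg, ?_⟩
  filter_upwards [hr] with z hz
  obtain ⟨hv, h3⟩ := hz
  obtain ⟨c, hc⟩ := Projectivization.exists_smul_eq_mk_rep ℂ _ hv
  refine ⟨(c : ℂ), c.ne_zero, ?_⟩
  rw [h3, ← hc]
  rfl

/-- the quotient of two forms along the curve -/
noncomputable def quo (f : ℂ → ℙ ℂ (Fin (N + 1) → ℂ)) (g1 g0 : MvPolynomial (Fin (N + 1)) ℂ) :
    ℂ → ℂ := fun z => eval (f z).rep g1 / eval (f z).rep g0

theorem quo_mero {f : ℂ → ℙ ℂ (Fin (N + 1) → ℂ)} (hf : HolMap f) {d : ℕ}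
    {g1 g0 : MvPolynomial (Fin (N + 1)) ℂ} (h1 : g1.IsHomogeneous d) (h0 : g0.IsHomogeneous d) :
    Meromorphic (quo f g1 g0) := by
  intro a
  obtain ⟨g, hg, hr⟩ := rep_local hf a
  have h2 : MeromorphicAt (fun z => eval (fun j => g j z) g1 / eval (fun j => g j z) g0) a :=
    (an_eval hg g1).meromorphicAt.div (an_eval hg g0).meromorphicAt
  refine h2.congr ?_
  filter_upwards [hr.filter_mono nhdsWithin_le_nhds] with z hz
  obtain ⟨c, hc, hz⟩ := hz
  unfold quo
  rw [hz, eval_smul_homog h1, eval_smul_homog h0, mul_div_mul_left _ _ (pow_ne_zero _ hc)]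

theorem form_zero_or {f : ℂ → ℙ ℂ (Fin (N + 1) → ℂ)} (hf : HolMap f) {d : ℕ}
    {g0 : MvPolynomial (Fin (N + 1)) ℂ} (h0 : g0.IsHomogeneous d) :
    (∀ z, eval (f z).rep g0 = 0) ∨ ∀ᶠ z in codiscrete ℂ, eval (f z).rep g0 ≠ 0 := by
  have hloc : ∀ a, (∀ᶠ z in 𝓝 a, eval (f z).rep g0 = 0) ∨
      ∀ᶠ z in 𝓝[≠] a, eval (f z).rep g0 ≠ 0 := by
    intro a
    obtain ⟨g, hg, hr⟩ := rep_local hf a
    rcases (an_eval hg g0).eventually_eq_zero_or_eventually_ne_zero with h1 | h1
    · left
      filter_upwards [h1, hr] with z hz hz2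
      obtain ⟨c, -, hz2⟩ := hz2
      rw [hz2, eval_smul_homog h0, hz, mul_zero]
    · right
      filter_upwards [h1, hr.filter_mono nhdsWithin_le_nhds] with z hz hz2
      obtain ⟨c, hc, hz2⟩ := hz2
      rw [hz2, eval_smul_homog h0]
      exact mul_ne_zero (pow_ne_zero _ hc) hz
  have hclopen : IsClopen {a | ∀ᶠ z in 𝓝 a, eval (f z).rep g0 = 0} := by
    refine ⟨⟨?_⟩, ?_⟩
    · rw [isOpen_iff_mem_nhds]
      intro a ha
      have h1 : ∀ᶠ z in 𝓝[≠] a, eval (f z).rep g0 ≠ 0 := (hloc a).resolve_left ha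
      have h2 : ∀ᶠ z in 𝓝[≠] a, z ∈ {a | ∀ᶠ z in 𝓝 a, eval (f z).rep g0 = 0}ᶜ := by
        filter_upwards [h1] with z hz hz2
        have hz3 : ∀ᶠ w in 𝓝 z, eval (f w).rep g0 = 0 := hz2
        exact hz hz3.self_of_nhds
      rw [eventually_nhdsWithin_iff] at h2
      filter_upwards [h2] with z hz
      by_cases hza : z = a
      · rw [hza]
        exact ha
      · exact hz hza
    · rw [isOpen_iff_mem_nhds]
      intro a ha
      exact eventually_eventually_nhds.2 ha
  rcases isClopen_iff.1 hclopen with h1 | h1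
  · right
    refine codis_of_nhdsNE fun a => (hloc a).resolve_left fun h2 => ?_
    have h3 : a ∈ {a | ∀ᶠ z in 𝓝 a, eval (f z).rep g0 = 0} := h2
    rw [h1] at h3
    exact h3
  · left
    intro a
    have h3 : a ∈ {a | ∀ᶠ z in 𝓝 a, eval (f z).rep g0 = 0} := by
      rw [h1]
      trivial
    have h4 : ∀ᶠ w in 𝓝 a, eval (f w).rep g0 = 0 := h3
    exact h4.self_of_nhds

theorem db_ring (G : GrowthClass) : DB G.ring where
  mero := fun _ hb => hb.1
  der := fun _ hb => GrowthClass.in_deriv hb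

theorem in_of_algRatio {G : GrowthClass} {f : ℂ → ℙ ℂ (Fin (N + 1) → ℂ)} (hf : HolMap f) {d : ℕ}
    {g1 g0 : MvPolynomial (Fin (N + 1)) ℂ} (h1 : g1.IsHomogeneous d) (h0 : g0.IsHomogeneous d)
    (ha : AlgRatio G.ring (fun z => eval (f z).rep g1) fun z => eval (f z).rep g0) :
    G.In (quo f g1 g0) := by
  have hm := quo_mero hf h1 h0
  rcases form_zero_or hf h0 with h2 | h2
  · refine G.in_zero hm (Eventually.of_forall fun z => ?_)
    simp only [quo, h2 z, div_zero, Pi.zero_apply]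
  · obtain ⟨m, b, hb, hne, hs⟩ := ha
    refine GrowthClass.in_alg hm m b hb hne ?_
    filter_upwards [hs, h2] with z hz hz2
    have h3 : ∑ k ∈ Finset.range (m + 1), b k z * quo f g1 g0 z ^ k =
        (eval (f z).rep g0 ^ m)⁻¹ * ∑ k ∈ Finset.range (m + 1), b k z * eval (f z).rep g1 ^ k *
          eval (f z).rep g0 ^ (m - k) := by
      rw [Finset.mul_sum]
      refine Finset.sum_congr rfl fun k hk => ?_
      have hk' : k ≤ m := by
        have := Finset.mem_range.1 hk
        omega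
      unfold quo
      rw [div_pow, ← Nat.sub_add_cancel hk', pow_add, Nat.sub_add_cancel hk']
      field_simp
    rw [h3, hz, mul_zero]

/-- The rational functions in the field `E` have their characteristics along `f` in the class. -/
def GrowthAlong {K : Type} [Field K] [Algebra ℂ K] (G : GrowthClass) (y : Fin (N + 1) → K)
    (f : ℂ → ℙ ℂ (Fin (N + 1) → ℂ)) (E : IntermediateField ℂ K) : Prop :=
  ∀ (d : ℕ) (g1 g0 : MvPolynomial (Fin (N + 1)) ℂ), g1.IsHomogeneous d → g0.IsHomogeneous d →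
    aeval y g0 ≠ 0 → aeval y g1 / aeval y g0 ∈ E →
    Meromorphic (fun z => eval (f z).rep g1 / eval (f z).rep g0) ∧
      G.mem (characteristic (fun z => eval (f z).rep g1 / eval (f z).rep g0) ⊤)

theorem growthAlong_of {K : Type} [Field K] [Algebra ℂ K] {G : GrowthClass}
    {y : Fin (N + 1) → K} {f : ℂ → ℙ ℂ (Fin (N + 1) → ℂ)} (hf : HolMap f)
    {E : IntermediateField ℂ K} (h : AlgebraicAlong G.ring y f E) : GrowthAlong G y f E :=
  fun d g1 g0 h1 h0 hn hmem => in_of_algRatio hf h1 h0 (h d g1 g0 h1 h0 hn hmem)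

/-- The order function of an entire curve: the sum of the Nevanlinna characteristics of the
quotients of the homogeneous coordinates. -/
noncomputable def order (f : ℂ → ℙ ℂ (Fin (N + 1) → ℂ)) (r : ℝ) : ℝ :=
  ∑ i, ∑ j, characteristic (fun z => (f z).rep i / (f z).rep j) ⊤ r

theorem sum_mem {ι : Type} (G : GrowthClass) (s : Finset ι) (u : ι → ℝ → ℝ)
    (h : ∀ i ∈ s, G.mem (u i)) : G.mem fun r => ∑ i ∈ s, u i r := by
  classical
  induction s using Finset.induction_on with
  | empty => simpa using G.const_mem 0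
  | insert a s ha ih =>
    simp only [Finset.sum_insert ha]
    exact G.add_mem _ _ (h a (Finset.mem_insert_self a s))
      (ih fun i hi => h i (Finset.mem_insert_of_mem hi))

theorem order_mem {G : GrowthClass} {f : ℂ → ℙ ℂ (Fin (N + 1) → ℂ)} (hf : HolMap f)
    (h : Pool.Agent.Y377.IL.AlgebraicOver G.ring f) : G.mem (order f) := by
  refine sum_mem G _ _ fun i _ => sum_mem G _ _ fun j _ => ?_
  have h1 := h i j
  have h2 : AlgRatio G.ring (fun z => eval (f z).rep (X i)) fun z => eval (f z).rep (X j) := by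
    simpa only [eval_X] using h1
  have h3 := (in_of_algRatio hf (isHomogeneous_X _ _) (isHomogeneous_X _ _) h2).2
  unfold quo at h3
  simpa only [eval_X] using h3

end Pool.Agent.E8helper90.ND
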