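import Pool.Agent.E8helper90.ND.Gr

/-!
Meromorphic functions on the plane of characteristic `O(log r)` are rational.
-/

set_option autoImplicit false

namespace Pool.Agent.E8helper90.ND

open MeasureTheory Set Metric Real Filter Topology MeromorphicOn ValueDistribution

/-- a bound outside a set of finite measure gives a bound everywhere -/
theorem extend_bd {h : ℂ → ℂ} (hh : Meromorphic h) {C : ℝ} {E : Set ℝ} (hE : volume E < ⊤)
    (hb : ∀ r, 1 ≤ r → r ∉ E → characteristic h ⊤ r ≤ C * (Real.log r + 1)) :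
    ∃ C' : ℝ, 0 ≤ C' ∧ ∀ r, 1 ≤ r → characteristic h ⊤ r ≤ C' * (Real.log r + 1) := by
  obtain ⟨L, hL⟩ : ∃ L : ℝ, L = (volume E).toReal + 1 := ⟨_, rfl⟩
  have hL0 : 1 ≤ L := by
    have := ENNReal.toReal_nonneg (a := volume E)
    linarith
  have hlog : 0 ≤ Real.log (1 + L) := Real.log_nonneg (by linarith)
  refine ⟨|C| * (1 + Real.log (1 + L)), by positivity, fun r hr => ?_⟩
  obtain ⟨r', h1, h2⟩ : ∃ r', r' ∈ Icc r (r + L) ∧ r' ∉ E := by
    by_contra hcon
    push Not at hcon
    have h1 : volume (Icc r (r + L)) ≤ volume E := measure_mono hcon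
    rw [Real.volume_Icc, add_sub_cancel_left] at h1
    have h2 := ENNReal.toReal_mono hE.ne h1
    rw [ENNReal.toReal_ofReal (by linarith)] at h2
    linarith
  have hr' : 1 ≤ r' := hr.trans h1.1
  have h3 : characteristic h ⊤ r ≤ characteristic h ⊤ r' :=
    characteristic_monotoneOn hh (by simp only [mem_Ioi]; linarith)
      (by simp only [mem_Ioi]; linarith) h1.1
  have h4 := hb r' hr' h2
  have h5 : Real.log r' ≤ Real.log r + Real.log (1 + L) := by
    rw [← Real.log_mul (by linarith) (by linarith)]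
    refine Real.log_le_log (by linarith) ?_
    have := h1.2
    nlinarith
  have h6 : 0 ≤ Real.log r' := Real.log_nonneg hr'
  have h7 : 0 ≤ Real.log r := Real.log_nonneg hr
  calc characteristic h ⊤ r ≤ C * (Real.log r' + 1) := h3.trans h4
    _ ≤ |C| * (Real.log r' + 1) := by
        refine mul_le_mul_of_nonneg_right (le_abs_self C) (by linarith)
    _ ≤ |C| * ((1 + Real.log (1 + L)) * (Real.log r + 1)) := by
        refine mul_le_mul_of_nonneg_left ?_ (abs_nonneg C)
        nlinarith [mul_nonneg hlog h7]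
    _ = |C| * (1 + Real.log (1 + L)) * (Real.log r + 1) := by ring

theorem char_id {r : ℝ} (hr : 1 ≤ r) : characteristic (fun z : ℂ => z) ⊤ r = Real.log r := by
  have hr0 : 0 < r := by linarith
  have h1 : logCounting (fun z : ℂ => z) ⊤ r = 0 := by
    rw [logCounting_top]
    have h2 : (0 : Function.locallyFinsuppWithin (univ : Set ℂ) ℤ) ≤
        divisor (fun z : ℂ => z) univ :=
      AnalyticOnNhd.divisor_nonneg fun z _ => analyticAt_id
    rw [negPart_eq_zero.2 h2]
    simp
  have h3 : proximity (fun z : ℂ => z) ⊤ r = Real.log r := by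
    rw [proximity_top]
    refine circleAverage_const_on_circle fun z hz => ?_
    rw [abs_of_pos hr0] at hz
    have hz' : ‖z‖ = r := by simpa using hz
    rw [hz', Real.posLog_eq_log]
    rw [abs_of_pos hr0]
    exact hr
  rw [characteristic, Pi.add_apply, h1, h3, add_zero]

theorem poly_in (G : GrowthClass) (P : Polynomial ℂ) : G.In fun z => P.eval z := by
  have hid : G.In fun z => z := by
    refine ⟨fun z => analyticAt_id.meromorphicAt, G.of_le' G.log_mem fun r hr => ?_⟩
    rw [char_id hr]
    linarith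
  induction P using Polynomial.induction_on with
  | C a =>
    simp only [Polynomial.eval_C]
    exact G.in_const a
  | add p q hp hq =>
    simp only [Polynomial.eval_add]
    exact GrowthClass.in_add hp hq
  | monomial n a ih =>
    have h1 := GrowthClass.in_mul ih hid
    have h2 : (fun z : ℂ => (Polynomial.C a * Polynomial.X ^ (n + 1)).eval z) =
        (fun z : ℂ => (Polynomial.C a * Polynomial.X ^ n).eval z) * fun z => z := by
      funext z
      simp only [Polynomial.eval_mul, Polynomial.eval_C, Polynomial.eval_pow, Polynomial.eval_X,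
        Pi.mul_apply]
      ring
    rw [h2]
    exact h1

/-- the class `O(log r)` -/
noncomputable def logClass : GrowthClass := bigO (fun r => Real.log r + 1) fun _ _ => le_rfl

theorem finite_poles {h : ℂ → ℂ} {C : ℝ}
    (hb : ∀ r, 1 ≤ r → characteristic h ⊤ r ≤ C * (Real.log r + 1)) :
    (divisor h univ)⁻.support.Finite := by
  rw [← logCounting_isBigO_log_iff_finite_support]
  refine Asymptotics.IsBigO.of_bound (2 * |C|) ?_
  filter_upwards [eventually_ge_atTop (Real.exp 1)] with r hr
  have hr1 : 1 ≤ r := by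
    have := Real.add_one_le_exp (1 : ℝ)
    linarith
  have h1 : 1 ≤ Real.log r := by
    rw [← Real.log_exp 1]
    exact Real.log_le_log (Real.exp_pos 1) hr
  have h2 : 0 ≤ logCounting h ⊤ r := logCounting_nonneg hr1
  have h3 : 0 ≤ proximity h ⊤ r := proximity_nonneg r
  have h4 := hb r hr1
  have e : characteristic h ⊤ r = proximity h ⊤ r + logCounting h ⊤ r := rfl
  rw [Real.norm_of_nonneg h2, Real.norm_of_nonneg (by linarith : (0 : ℝ) ≤ Real.log r)]
  have h5 : C * (Real.log r + 1) ≤ |C| * (Real.log r + 1) :=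
    mul_le_mul_of_nonneg_right (le_abs_self C) (by linarith)
  have h6 : |C| * (Real.log r + 1) ≤ |C| * (2 * Real.log r) :=
    mul_le_mul_of_nonneg_left (by linarith) (abs_nonneg C)
  linarith

/-- a function without zeros and poles of characteristic `O(log r)` is constant -/
theorem const_of_log {g : ℂ → ℂ} (hg : AnalyticOnNhd ℂ g univ) (h0 : ∀ z, g z ≠ 0) {C : ℝ}
    (hC : 0 ≤ C) (hb : ∀ r, 1 ≤ r → characteristic g ⊤ r ≤ C * (Real.log r + 1)) :
    ∃ c, ∀ z, g z = c := by
  have hm : Meromorphic g := fun z => (hg z (mem_univ z)).meromorphicAt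
  have hord : ∀ z, meromorphicOrderAt g z = 0 := by
    intro z
    rw [(hg z (mem_univ z)).meromorphicOrderAt_eq,
      (hg z (mem_univ z)).analyticOrderAt_eq_zero.2 (h0 z)]
    rfl
  have hbd : ∀ z : ℂ, ∀ R : ℝ, 1 ≤ R → 2 * ‖z‖ < R → ‖logDeriv g z‖ ≤
      8 / R * (2 * (C * (Real.log R + 1)) + fmt g) := by
    intro z R hR hzR
    have hz0 := norm_nonneg z
    have h1 := logDeriv_le (hm.meromorphicOn (s := closedBall 0 R))
      (fun u _ => by rw [hord u]; exact WithTop.zero_ne_top) (fun u _ => hord u) (z := z)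
      (by simp only [mem_ball, dist_zero_right]; linarith) (hg z (mem_univ z)) (h0 z) ∅
      (fun u hu => by
        exfalso
        apply hu
        by_cases hub : u ∈ ball (0 : ℂ) R
        · rw [divisor_apply hm.meromorphicOn hub, hord u]
          rfl
        · exact Function.locallyFinsuppWithin.apply_eq_zero_of_notMem _ hub)
      (fun u hu => by simp at hu) (by simp)
    rw [Finset.sum_empty, add_zero] at h1
    have h2 := avg_abs_log_le hm hR
    have h3 := hb R hR
    have h4 : 0 ≤ 2 * (C * (Real.log R + 1)) + fmt g := by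
      have e1 := Real.log_nonneg hR
      have e2 := fmt_nonneg g
      positivity
    have h5 : 2 * R / (R - ‖z‖) ^ 2 ≤ 8 / R := by
      rw [div_le_div_iff₀ (by have : 0 < R - ‖z‖ := by linarith
                              positivity) (by linarith)]
      nlinarith
    have h6 : 0 ≤ 2 * R / (R - ‖z‖) ^ 2 := by positivity
    calc ‖logDeriv g z‖ ≤ 2 * R / (R - ‖z‖) ^ 2 *
          circleAverage (fun ζ => |Real.log ‖g ζ‖|) 0 R := h1
      _ ≤ 2 * R / (R - ‖z‖) ^ 2 * (2 * (C * (Real.log R + 1)) + fmt g) :=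
          mul_le_mul_of_nonneg_left (by linarith) h6
      _ ≤ 8 / R * (2 * (C * (Real.log R + 1)) + fmt g) :=
          mul_le_mul_of_nonneg_right h5 h4
  have hzero : ∀ z, logDeriv g z = 0 := by
    intro z
    have h1 : Tendsto (fun R : ℝ => 8 / R * (2 * (C * (Real.log R + 1)) + fmt g)) atTop
        (𝓝 0) := by
      have e1 := Real.tendsto_pow_log_div_mul_add_atTop 1 0 1 one_ne_zero
      have e2 : Tendsto (fun R : ℝ => R⁻¹) atTop (𝓝 0) := tendsto_inv_atTop_zero
      have e3 := (e1.const_mul (16 * C)).add (e2.const_mul (16 * C + 8 * fmt g))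
      rw [mul_zero, mul_zero, add_zero] at e3
      refine e3.congr fun R => ?_
      rw [pow_one, one_mul, add_zero, div_eq_mul_inv, div_eq_mul_inv]
      ring
    have h2 : ‖logDeriv g z‖ ≤ 0 := by
      refine ge_of_tendsto h1 ?_
      filter_upwards [eventually_ge_atTop 1, eventually_gt_atTop (2 * ‖z‖)] with R hR hR2
      exact hbd z R hR hR2
    exact norm_le_zero_iff.1 h2
  have hder : ∀ z, deriv g z = 0 := by
    intro z
    have h1 := hzero z
    rw [logDeriv_apply] at h1
    exact (div_eq_zero_iff.1 h1).resolve_right (h0 z)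
  have hd : Differentiable ℂ g := fun z => (hg z (mem_univ z)).differentiableAt
  exact ⟨g 0, fun z => is_const_of_deriv_eq_zero hd hder z 0⟩

/-- a meromorphic function of characteristic `O(log r)` is rational -/
theorem rational_of_log {h : ℂ → ℂ} (hh : logClass.In h) :
    ∃ P Q : Polynomial ℂ, Q ≠ 0 ∧ ∀ᶠ z in codiscrete ℂ, Q.eval z * h z = P.eval z := by
  classical
  rcases zero_or hh.1 with h0 | hne
  · refine ⟨0, 1, one_ne_zero, ?_⟩
    filter_upwards [h0] with z hz
    rw [hz]
    simp
  obtain ⟨C, E, hE, hb⟩ := hh.2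
  obtain ⟨C1, hC1, hb1⟩ := extend_bd hh.1 hE hb
  obtain ⟨C2, E2, hE2, hb2⟩ := (GrowthClass.in_inv hh).2
  obtain ⟨C3, hC3, hb3⟩ := extend_bd hh.1.inv hE2 hb2
  have hfin : (divisor h univ).support.Finite := by
    have h1 := finite_poles hb1
    have h2 := finite_poles hb3
    refine (h1.union h2).subset fun z hz => ?_
    rw [Function.mem_support] at hz
    rcases lt_or_gt_of_ne hz with h3 | h3
    · left
      rw [Function.mem_support, Function.locallyFinsuppWithin.negPart_apply,
        negPart_of_nonpos h3.le]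
      omega
    · right
      rw [Function.mem_support, divisor_inv, Function.locallyFinsuppWithin.negPart_apply,
        Function.locallyFinsuppWithin.coe_neg, Pi.neg_apply, negPart_of_nonpos (by omega)]
      omega
  obtain ⟨g, hg, hg0, he⟩ := MeromorphicOn.extract_zeros_poles (hh.1.meromorphicOn (s := univ))
    (fun u => hne u) hfin
  obtain ⟨S, hS⟩ : ∃ S : Finset ℂ, S = hfin.toFinset := ⟨_, rfl⟩
  obtain ⟨n, hn⟩ : ∃ n : ℂ → ℤ, n = fun u => divisor h univ u := ⟨_, rfl⟩
  let P : Polynomial ℂ := ∏ u ∈ S, (Polynomial.X - Polynomial.C u) ^ (n u).toNat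
  let Q : Polynomial ℂ := ∏ u ∈ S, (Polynomial.X - Polynomial.C u) ^ (-n u).toNat
  have hmon : ∀ e : ℂ → ℕ, (∏ u ∈ S, (Polynomial.X - Polynomial.C u) ^ e u :
      Polynomial ℂ) ≠ 0 := fun e => Finset.prod_ne_zero_iff.2 fun u _ =>
        pow_ne_zero _ (Polynomial.X_sub_C_ne_zero u)
  have hφ : ∀ z, (∏ᶠ u, (fun x : ℂ => x - u) ^ divisor h univ u : ℂ → ℂ) z =
      ∏ u ∈ S, (z - u) ^ n u := by
    intro z
    have h1 : (∏ᶠ u, (fun x : ℂ => x - u) ^ divisor h univ u : ℂ → ℂ) =
        ∏ u ∈ S, (fun x : ℂ => x - u) ^ divisor h univ u := by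
      refine finprod_eq_prod_of_mulSupport_subset _ fun u hu => ?_
      rw [hS, Set.Finite.coe_toFinset, Function.mem_support]
      intro h0
      apply hu
      simp only [h0, zpow_zero]
    rw [h1, Finset.prod_apply]
    refine Finset.prod_congr rfl fun u _ => ?_
    rw [hn]
    rfl
  have hfacts : ∀ z, z ∉ S → Q.eval z ≠ 0 ∧ P.eval z ≠ 0 ∧
      Q.eval z * ∏ u ∈ S, (z - u) ^ n u = P.eval z := by
    intro z hz
    have hzu : ∀ u ∈ S, z - u ≠ 0 := fun u hu h0 => hz (by rwa [sub_eq_zero.1 h0])
    have e1 : ∀ e : ℂ → ℕ, (∏ u ∈ S, (Polynomial.X - Polynomial.C u) ^ e u :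
        Polynomial ℂ).eval z = ∏ u ∈ S, (z - u) ^ e u := by
      intro e
      rw [Polynomial.eval_prod]
      refine Finset.prod_congr rfl fun u _ => ?_
      simp
    refine ⟨?_, ?_, ?_⟩
    · rw [e1]
      exact Finset.prod_ne_zero_iff.2 fun u hu => pow_ne_zero _ (hzu u hu)
    · rw [e1]
      exact Finset.prod_ne_zero_iff.2 fun u hu => pow_ne_zero _ (hzu u hu)
    · rw [e1, e1, ← Finset.prod_mul_distrib]
      refine Finset.prod_congr rfl fun u hu => ?_
      rw [← zpow_natCast, ← zpow_natCast, ← zpow_add₀ (hzu u hu)]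
      congr 1
      omega
  have hcod : ∀ᶠ z in codiscrete ℂ, z ∉ S := by
    refine codis_of_nhdsNE fun x => ?_
    have h1 : ∀ᶠ z in 𝓝 x, z ∈ ((S.erase x : Finset ℂ) : Set ℂ)ᶜ :=
      (S.erase x).finite_toSet.isClosed.isOpen_compl.mem_nhds (by simp)
    filter_upwards [h1.filter_mono nhdsWithin_le_nhds, self_mem_nhdsWithin] with z h2 h3 h4
    apply h2
    rw [Finset.coe_erase]
    exact ⟨h4, h3⟩
  have heq : ∀ᶠ z in codiscrete ℂ, Q.eval z * h z = P.eval z * g z := by
    filter_upwards [he, hcod] with z h1 h2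
    rw [h1, Pi.smul_apply', smul_eq_mul, hφ, ← mul_assoc, (hfacts z h2).2.2]
  have hgin : logClass.In g := by
    refine GrowthClass.in_congr (GrowthClass.in_mul (GrowthClass.in_mul (poly_in logClass Q) hh)
      (GrowthClass.in_inv (poly_in logClass P)))
      (fun z => (hg z (mem_univ z)).meromorphicAt) ?_
    filter_upwards [heq, hcod] with z h1 h2
    rw [Pi.mul_apply, Pi.mul_apply, Pi.inv_apply, h1]
    have h3 := (hfacts z h2).2.1
    field_simp
  obtain ⟨C4, E4, hE4, hb4⟩ := hgin.2
  obtain ⟨C5, hC5, hb5⟩ := extend_bd hgin.1 hE4 hb4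
  obtain ⟨c, hc⟩ := const_of_log hg (fun z => hg0 ⟨z, mem_univ z⟩) hC5 hb5
  refine ⟨P * Polynomial.C c, Q, hmon _, ?_⟩
  filter_upwards [heq] with z h1
  rw [h1, hc z, Polynomial.eval_mul, Polynomial.eval_C]

end Pool.Agent.E8helper90.ND
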