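import Pool.Agent.E8helper90.ND.Pj
import Pool.Agent.E8helper90.ND.Rat

/-!
Curves given by iterated linear differential equations over small functions.
-/

set_option autoImplicit false

namespace Pool.Agent.E8helper90.ND

open MeasureTheory Set Filter Topology MvPolynomial ValueDistribution
open scoped LinearAlgebra.Projectivization
open Pool.Agent.TH143.EL (HolMap InV Rep eval_smul_homog rep_smul rep_rep inV_of_punct holMap_ext
  rep_eq' inV_iff)
open Pool.Agent.TH143.HE (RatCurvesIn IsPtP NonConst)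
open Pool.Agent.Y377.IL (AlgRatio DB AlgebraicAlong AlgebraicOver IteratedOver IterLin)

variable {N : ℕ}

theorem order_nonneg (f : ℂ → ℙ ℂ (Fin (N + 1) → ℂ)) {r : ℝ} (hr : 1 ≤ r) : 0 ≤ order f r :=
  Finset.sum_nonneg fun _ _ => Finset.sum_nonneg fun _ _ => characteristic_nonneg hr

theorem le_order (f : ℂ → ℙ ℂ (Fin (N + 1) → ℂ)) (i j : Fin (N + 1)) {r : ℝ} (hr : 1 ≤ r) :
    characteristic (fun z => (f z).rep i / (f z).rep j) ⊤ r ≤ order f r := by
  have h1 : ∑ j, characteristic (fun z => (f z).rep i / (f z).rep j) ⊤ r ≤ order f r :=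
    Finset.single_le_sum (f := fun i => ∑ j,
      characteristic (fun z => (f z).rep i / (f z).rep j) ⊤ r)
      (fun _ _ => Finset.sum_nonneg fun _ _ => characteristic_nonneg hr) (Finset.mem_univ i)
  exact (Finset.single_le_sum (f := fun j =>
    characteristic (fun z => (f z).rep i / (f z).rep j) ⊤ r)
      (fun _ _ => characteristic_nonneg hr) (Finset.mem_univ j)).trans h1

/-- The class of the small functions of the curve `f`: for every `ε > 0` they are bounded by
`ε T(r) + C (log r + 1)` outside a set of finite measure, where `T` is the order function. -/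
noncomputable def smallClass (f : ℂ → ℙ ℂ (Fin (N + 1) → ℂ)) : GrowthClass where
  mem u := ∀ ε : ℝ, 0 < ε → ∃ (C : ℝ) (E : Set ℝ), volume E < ⊤ ∧
    ∀ r, 1 ≤ r → r ∉ E → u r ≤ ε * order f r + C * (Real.log r + 1)
  log_mem := by
    intro ε hε
    refine ⟨1, ∅, by simp, fun r hr _ => ?_⟩
    have h1 := mul_nonneg hε.le (order_nonneg f hr)
    linarith
  add_mem := by
    intro u v h1 h2 ε hε
    obtain ⟨C1, E1, h1, h1'⟩ := h1 (ε / 2) (by linarith)
    obtain ⟨C2, E2, h2, h2'⟩ := h2 (ε / 2) (by linarith)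
    refine ⟨C1 + C2, E1 ∪ E2, lt_of_le_of_lt (measure_union_le _ _)
      (ENNReal.add_lt_top.2 ⟨h1, h2⟩), fun r hr hrE => ?_⟩
    rw [mem_union, not_or] at hrE
    have e1 := h1' r hr hrE.1
    have e2 := h2' r hr hrE.2
    linarith
  of_le := by
    intro u v E hu hE h ε hε
    obtain ⟨C, E', h1, h1'⟩ := hu ε hε
    refine ⟨C, E' ∪ E, lt_of_le_of_lt (measure_union_le _ _)
      (ENNReal.add_lt_top.2 ⟨h1, hE⟩), fun r hr hrE => ?_⟩
    rw [mem_union, not_or] at hrE
    exact (h r hr hrE.2).trans (h1' r hr hrE.1)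

theorem log_of_small {f : ℂ → ℙ ℂ (Fin (N + 1) → ℂ)} (hf : HolMap f)
    (h : (smallClass f).mem (order f)) (i j : Fin (N + 1)) :
    logClass.In fun z => (f z).rep i / (f z).rep j := by
  obtain ⟨C, E, hE, h1⟩ := h (1 / 2) (by norm_num)
  refine ⟨?_, 2 * C, E, hE, fun r hr hrE => ?_⟩
  · have h2 := quo_mero hf (isHomogeneous_X ℂ i) (isHomogeneous_X ℂ j)
    unfold quo at h2
    simpa only [eval_X] using h2
  · have h2 := h1 r hr hrE
    have h3 := le_order f i j hr
    linarith

theorem const_mem_bot (c : ℂ) : (fun _ : ℂ => c) ∈ (⊥ : Subalgebra ℂ (ℂ → ℂ)) :=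
  Algebra.mem_bot.2 ⟨c, rfl⟩

theorem iterLin_const (c : ℂ) : IterLin ⊥ fun _ => c := by
  have h1 := IterLin.quot (const_mem_bot c) (const_mem_bot 1)
  simpa using h1

theorem iterLin_id : IterLin ⊥ fun z => z := by
  have h1 := IterLin.ode (B := ⊥) (n := 2) (fun i j _ => if i = 0 ∧ j = 1 then 1 else 0)
    ![fun z => z, fun _ => 1] (fun i j => iterLin_const _) (fun i => by
      fin_cases i
      · exact fun z => analyticAt_id.meromorphicAt
      · exact Meromorphic.const 1) (Eventually.of_forall fun z i => by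
      fin_cases i
      · simpa using hasDerivAt_id' z
      · simpa using hasDerivAt_const z (1 : ℂ)) 0
  simpa using h1

theorem iterLin_poly (P : Polynomial ℂ) : IterLin ⊥ fun z => P.eval z := by
  induction P using Polynomial.induction_on with
  | C a =>
    simp only [Polynomial.eval_C]
    exact iterLin_const a
  | add p q hp hq =>
    simp only [Polynomial.eval_add]
    exact hp.add hq
  | monomial n a ih =>
    have h1 := ih.mul iterLin_id
    have h2 : (fun z : ℂ => (Polynomial.C a * Polynomial.X ^ (n + 1)).eval z) =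
        fun z : ℂ => (Polynomial.C a * Polynomial.X ^ n).eval z * z := by
      funext z
      simp only [Polynomial.eval_mul, Polynomial.eval_C, Polynomial.eval_pow, Polynomial.eval_X]
      ring
    rw [h2]
    exact h1

theorem poly_ne {Q : Polynomial ℂ} (hQ : Q ≠ 0) : ∀ᶠ z in codiscrete ℂ, Q.eval z ≠ 0 := by
  refine codis_of_nhdsNE fun x => ?_
  have h1 : ∀ᶠ z in 𝓝 x, z ∈ ((Q.roots.toFinset.erase x : Finset ℂ) : Set ℂ)ᶜ :=
    (Q.roots.toFinset.erase x).finite_toSet.isClosed.isOpen_compl.mem_nhds (by simp)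
  filter_upwards [h1.filter_mono nhdsWithin_le_nhds, self_mem_nhdsWithin] with z h2 h3 h4
  apply h2
  rw [Finset.coe_erase]
  refine ⟨?_, h3⟩
  rw [Finset.mem_coe, Multiset.mem_toFinset]
  exact (Polynomial.mem_roots hQ).2 h4

/-- curves whose coordinates have quotients of characteristic `O(log r)` are rational -/
theorem poly_coords {f : ℂ → ℙ ℂ (Fin (N + 1) → ℂ)} (hf : HolMap f)
    (h : ∀ i j, logClass.In fun z => (f z).rep i / (f z).rep j) :
    ∃ H : Fin (N + 1) → Polynomial ℂ, ∀ᶠ z in codiscrete ℂ, Rep (f z) fun j => (H j).eval z := by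
  classical
  obtain ⟨l, hl0⟩ := Function.ne_iff.1 (f 0).rep_nonzero
  have hl : ∀ᶠ z in codiscrete ℂ, (f z).rep l ≠ 0 := by
    rcases form_zero_or hf (isHomogeneous_X ℂ l) with h1 | h1
    · exact absurd (by simpa using h1 0) hl0
    · simpa only [eval_X] using h1
  choose P Q hQ hPQ using fun j => rational_of_log (h j l)
  refine ⟨fun j => (∏ i ∈ Finset.univ.erase j, Q i) * P j, ?_⟩
  have h1 : ∀ᶠ z in codiscrete ℂ, ∀ j, (Q j).eval z * ((f z).rep j / (f z).rep l) =
      (P j).eval z := eventually_all.2 hPQ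
  have h2 : ∀ᶠ z in codiscrete ℂ, ∀ j, (Q j).eval z ≠ 0 :=
    eventually_all.2 fun j => poly_ne (hQ j)
  filter_upwards [h1, h2, hl] with z e1 e2 e3
  have e4 : (fun j => ((∏ i ∈ Finset.univ.erase j, Q i) * P j).eval z) =
      fun j => (∏ i, (Q i).eval z) / (f z).rep l * (f z).rep j := by
    funext j
    rw [Polynomial.eval_mul, Polynomial.eval_prod, ← e1 j,
      ← Finset.mul_prod_erase Finset.univ (fun i => (Q i).eval z) (Finset.mem_univ j)]
    ring
  rw [e4]
  refine (rep_smul ?_).2 (rep_rep (f z))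
  exact div_ne_zero (Finset.prod_ne_zero_iff.2 fun i _ => e2 i) e3

theorem iterated_bot_of_log {f : ℂ → ℙ ℂ (Fin (N + 1) → ℂ)} (hf : HolMap f)
    (h : ∀ i j, logClass.In fun z => (f z).rep i / (f z).rep j) : IteratedOver ⊥ f := by
  obtain ⟨H, hH⟩ := poly_coords hf h
  exact ⟨fun j z => (H j).eval z, fun j => iterLin_poly (H j), hH⟩

/-- rational curves lie in the exceptional set or are constant -/
theorem log_dich {I I' : Ideal (MvPolynomial (Fin (N + 1)) ℂ)}
    (hR : RatCurvesIn (RingHom.id ℂ) I I') {f : ℂ → ℙ ℂ (Fin (N + 1) → ℂ)} (hf : HolMap f)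
    (h : ∀ i j, logClass.In fun z => (f z).rep i / (f z).rep j) (hI : ∀ z, InV I (f z)) :
    (∀ z, InV I' (f z)) ∨ ∀ z w, f z = f w := by
  obtain ⟨H, hH⟩ := poly_coords hf h
  have hpt : ∀ u, IsPtP (RingHom.id ℂ) I fun j => (H j).eval u := by
    intro u G hG hGh
    have h1 : ∀ᶠ z in 𝓝[≠] u, eval (fun j => (H j).eval z) G = 0 := by
      filter_upwards [codis_nhdsNE hH u] with z hz
      exact (inV_iff hz).1 (hI z) G hG hGh
    have h2 : AnalyticAt ℂ (fun z => eval (fun j => (H j).eval z) G) u :=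
      an_eval (fun j => (H j).differentiable.analyticAt u) G
    have h3 := (h2.frequently_zero_iff_eventually_zero).1 h1.frequently
    have h4 := h3.self_of_nhds
    rw [eval₂_id]
    exact h4
  by_cases hnc : NonConst H
  · left
    intro u
    refine inV_of_punct hf ?_
    filter_upwards [codis_nhdsNE hH u] with z hz
    rw [inV_iff hz]
    intro G hG hGh
    have h1 := hR H hpt hnc z G hG hGh
    rwa [eval₂_id] at h1
  · right
    unfold NonConst at hnc
    push Not at hnc
    have hc : ∀ z w, Rep (f z) (fun j => (H j).eval z) → Rep (f w) (fun j => (H j).eval w) →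
        f z = f w := fun z w h1 h2 => rep_eq' h1 h2 fun j k => by
      have := hnc j k z w
      exact this
    obtain ⟨w0, hw0⟩ := hH.exists
    have hall : ∀ z, f z = f w0 := by
      intro z
      have hcon : HolMap fun _ : ℂ => f w0 := by
        intro a
        obtain ⟨g, hg, hr⟩ := hf w0
        refine ⟨fun j _ => g j w0, fun j => analyticAt_const, Eventually.of_forall fun _ => ?_⟩
        exact hr.self_of_nhds
      refine holMap_ext hf hcon ?_
      filter_upwards [codis_nhdsNE hH z] with w hw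
      exact hc w w0 hw hw0
    intro z w
    rw [hall z, hall w]

end Pool.Agent.E8helper90.ND
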